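import Mathlib

/-!
# Cost of affine signed permutations of type B-tilde

We prove, for every `n ≥ 1` and every `w` in the group `SB n` of affine signed permutations of
type B-tilde, that the minimum of `∑ tvd (t_r) / 2` over all factorizations `w = t_1 ⋯ t_k` into
reflections `t_r` of `SB n` equals `tvd w / 2 + blC w - blB w`.

Lower bound: `Φ w = tvd w + 2 * #(cuts k in [n-1] that are good but not very good)` satisfies
`Φ w ≤ Φ (w * t) + tvd t` for each reflection `t` (theorem `lip`).
Upper bound: for `w ≠ 1` some reflection `t` satisfies `Φ (w * t) + tvd t ≤ Φ w` (theorem `step`).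
-/

namespace Pool.Agent.Results.MP_0e82d3_co.CostFormula

/-- `w` is an affine signed permutation of `ℤ`: a bijection with `w (-i) = -w i` and
`w (i + N) = w i + N`, where `N = 2n+2`. -/
def IsAffineSigned (n : ℕ) (w : Equiv.Perm ℤ) : Prop :=
  (∀ i : ℤ, w (-i) = -(w i)) ∧ ∀ i : ℤ, w (i + (2 * n + 2)) = w i + (2 * n + 2)

/-- The group of affine signed permutations `w` for which the (always finite) number of `i > 0`
with `w i < 0` is even. -/
def SB (n : ℕ) : Set (Equiv.Perm ℤ) :=
  {w | IsAffineSigned n w ∧ Even ({i : ℤ | 0 < i ∧ w i < 0}.ncard)}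

/-- Total displacement `∑_{i=1}^n |w i - i|`. -/
noncomputable def tvd (n : ℕ) (w : Equiv.Perm ℤ) : ℤ := ∑ i ∈ Finset.Icc (1 : ℤ) n, |w i - i|

/-- The group of bijections of `ℤ` generated by `x ↦ -x` and `x ↦ x + N`. -/
def symGroup (n : ℕ) : Subgroup (Equiv.Perm ℤ) :=
  Subgroup.closure {Equiv.neg ℤ, Equiv.addRight (2 * (n : ℤ) + 2)}

/-- `t = ⟨(i j)⟩`: `t` exchanges `σ i` and `σ j` for every `σ` in the group generated by
`x ↦ -x` and `x ↦ x + N`, and fixes every other integer. -/
def IsTransposition (n : ℕ) (i j : ℤ) (t : Equiv.Perm ℤ) : Prop :=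
  (∀ σ ∈ symGroup n, t (σ i) = σ j ∧ t (σ j) = σ i) ∧
    ∀ x : ℤ, (∀ σ ∈ symGroup n, x ≠ σ i ∧ x ≠ σ j) → t x = x

/-- The reflections of the group `SB n`: the elements `⟨(i j)⟩`, `i ≠ j`, that lie in `SB n`. -/
def T (n : ℕ) : Set (Equiv.Perm ℤ) :=
  {t | t ∈ SB n ∧ ∃ i j : ℤ, i ≠ j ∧ IsTransposition n i j t}

/-- The set `±[j] = {±1, …, ±j}`. -/
def pm (j : ℕ) : Set ℤ := {x | 1 ≤ |x| ∧ |x| ≤ j}

/-- `j` is good for `w`: `w` maps `±[j]` (bijectively) onto itself. -/
def Good (w : Equiv.Perm ℤ) (j : ℕ) : Prop := w '' pm j = pm j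

/-- `j` is very good for `w`: it is good and `#{i ∈ [j] : w i < 0}` is even. -/
def VeryGood (w : Equiv.Perm ℤ) (j : ℕ) : Prop :=
  Good w j ∧ Even ({i : ℤ | 1 ≤ i ∧ i ≤ j ∧ w i < 0}.ncard)

/-- `bl^C w = 1 + #{good j ∈ [n-1]}`. -/
noncomputable def blC (n : ℕ) (w : Equiv.Perm ℤ) : ℕ :=
  1 + {j : ℕ | 1 ≤ j ∧ j < n ∧ Good w j}.ncard

/-- `bl^B w = 1 + #{very good j ∈ [n-1]}`. -/
noncomputable def blB (n : ℕ) (w : Equiv.Perm ℤ) : ℕ :=
  1 + {j : ℕ | 1 ≤ j ∧ j < n ∧ VeryGood w j}.ncard

/-- The set of all sums `∑ $(t_r)`, with `$(t) = tvd t / 2`, over the factorizations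
`w = t_1 ⋯ t_k` with all `t_r` reflections of `SB n`. -/
def factorizationCosts (n : ℕ) (w : Equiv.Perm ℤ) : Set ℚ :=
  {c | ∃ l : List (Equiv.Perm ℤ), (∀ t ∈ l, t ∈ T n) ∧ l.prod = w ∧
    c = (l.map (fun t => (tvd n t : ℚ) / 2)).sum}

variable {n : ℕ} {w t : Equiv.Perm ℤ}

theorem aff_zero (h : IsAffineSigned n w) : w 0 = 0 := by
  have := h.1 0
  simp at this
  omega

theorem aff_mid (h : IsAffineSigned n w) : w (n + 1) = n + 1 := by
  have h1 := h.2 (-(n + 1 : ℤ))
  rw [h.1] at h1
  have h2 : (-(n + 1 : ℤ) + (2 * n + 2)) = n + 1 := by ring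
  rw [h2] at h1
  linarith

theorem aff_shift_nat (h : IsAffineSigned n w) (x : ℤ) (k : ℕ) :
    w (x + k * (2 * n + 2)) = w x + k * (2 * n + 2) := by
  induction k with
  | zero => simp
  | succ k ih =>
    have : x + ((k + 1 : ℕ) : ℤ) * (2 * n + 2) = (x + k * (2 * n + 2)) + (2 * n + 2) := by
      push_cast; ring
    rw [this, h.2, ih]; push_cast; ring

theorem aff_shift (h : IsAffineSigned n w) (x k : ℤ) :
    w (x + k * (2 * n + 2)) = w x + k * (2 * n + 2) := by
  obtain ⟨m, rfl | rfl⟩ := k.eq_nat_or_neg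
  · exact aff_shift_nat h x m
  · have := aff_shift_nat h (x + -(m : ℤ) * (2 * n + 2)) m
    have h2 : x + -(m : ℤ) * (2 * n + 2) + m * (2 * n + 2) = x := by ring
    rw [h2] at this
    linarith

theorem aff_mul (h : IsAffineSigned n w) (h' : IsAffineSigned n t) : IsAffineSigned n (w * t) := by
  refine ⟨fun i => ?_, fun i => ?_⟩
  · simp [Equiv.Perm.mul_apply, h'.1, h.1]
  · simp only [Equiv.Perm.mul_apply, h'.2, h.2]

theorem mem_sym {σ : Equiv.Perm ℤ} :
    σ ∈ symGroup n ↔ ∃ k : ℤ, (∀ x, σ x = x + k * (2 * n + 2)) ∨ (∀ x, σ x = -x + k * (2 * n + 2)) := by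
  constructor
  · intro h
    unfold symGroup at h
    induction h using Subgroup.closure_induction with
    | mem x hx =>
      rcases hx with rfl | rfl
      · exact ⟨0, Or.inr (fun x => by simp)⟩
      · exact ⟨1, Or.inl (fun x => by simp; ring)⟩
    | one => exact ⟨0, Or.inl (fun x => by simp)⟩
    | mul a b _ _ ha hb =>
      obtain ⟨k, hk⟩ := ha
      obtain ⟨l, hl⟩ := hb
      rcases hk with hk | hk <;> rcases hl with hl | hl
      · exact ⟨k + l, Or.inl (fun x => by simp only [Equiv.Perm.mul_apply, hk, hl]; ring)⟩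
      · exact ⟨k + l, Or.inr (fun x => by simp only [Equiv.Perm.mul_apply, hk, hl]; ring)⟩
      · exact ⟨k - l, Or.inr (fun x => by simp only [Equiv.Perm.mul_apply, hk, hl]; ring)⟩
      · exact ⟨k - l, Or.inl (fun x => by simp only [Equiv.Perm.mul_apply, hk, hl]; ring)⟩
    | inv a _ ha =>
      obtain ⟨k, hk | hk⟩ := ha
      · refine ⟨-k, Or.inl (fun x => ?_)⟩
        rw [Equiv.Perm.inv_eq_iff_eq, hk]; ring
      · refine ⟨k, Or.inr (fun x => ?_)⟩
        rw [Equiv.Perm.inv_eq_iff_eq, hk]; ring
  · rintro ⟨k, hk⟩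
    have hs : Equiv.addRight (2 * (n : ℤ) + 2) ∈ symGroup n :=
      Subgroup.subset_closure (by simp)
    have hn : Equiv.neg ℤ ∈ symGroup n := Subgroup.subset_closure (by simp)
    have key : ∀ m : ℤ, ∃ τ ∈ symGroup n, ∀ x : ℤ, τ x = x + m * (2 * n + 2) := by
      intro m
      induction m using Int.induction_on with
      | zero => exact ⟨1, Subgroup.one_mem _, fun x => by simp⟩
      | succ i ih =>
        obtain ⟨τ, hτ, hx⟩ := ih
        refine ⟨τ * Equiv.addRight (2 * (n : ℤ) + 2), Subgroup.mul_mem _ hτ hs, fun x => ?_⟩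
        rw [Equiv.Perm.mul_apply, hx]; simp; ring
      | pred i ih =>
        obtain ⟨τ, hτ, hx⟩ := ih
        refine ⟨τ * (Equiv.addRight (2 * (n : ℤ) + 2))⁻¹,
          Subgroup.mul_mem _ hτ (Subgroup.inv_mem _ hs), fun x => ?_⟩
        rw [Equiv.Perm.mul_apply, hx]
        have : (Equiv.addRight (2 * (n : ℤ) + 2))⁻¹ x = x - (2 * n + 2) := by
          rw [Equiv.Perm.inv_eq_iff_eq]; simp; ring
        rw [this]; ring
    obtain ⟨τ, hτ, hx⟩ := key k
    rcases hk with hk | hk
    · have : σ = τ := by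
        ext x; rw [hk, hx]
      rw [this]; exact hτ
    · have : σ = τ * Equiv.neg ℤ := by
        ext x; rw [hk, Equiv.Perm.mul_apply, hx]; simp
      rw [this]; exact Subgroup.mul_mem _ hτ hn


theorem aff_ne_mul (h : IsAffineSigned n w) {x : ℤ} (h1 : 1 ≤ x) (h2 : x ≤ n) (k : ℤ) :
    w x ≠ k * (2 * n + 2) := by
  intro he
  have h0 := aff_shift h 0 k
  rw [aff_zero h, zero_add] at h0
  nth_rw 2 [← he] at h0
  have := w.injective h0
  rcases lt_trichotomy k 0 with hk | hk | hk
  · nlinarith
  · subst hk; omega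
  · nlinarith

theorem ncard_neg (h : IsAffineSigned n w) :
    {i : ℤ | 0 < i ∧ w i < 0}.ncard =
      ∑ x ∈ Finset.Icc (1 : ℤ) n, (w x / (2 * n + 2)).natAbs := by
  classical
  set N : ℤ := 2 * n + 2 with hN
  have hNpos : 0 < N := by positivity
  let f : ℤ → ℕ → ℤ := fun x a => if w x < 0 then x + a * N else -x + (a + 1) * N
  let F : Finset ℤ := (Finset.Icc (1 : ℤ) n).biUnion
    (fun x => (Finset.range (w x / N).natAbs).image (f x))
  have hfmod : ∀ x a, (w x < 0 ∧ f x a = x + a * N) ∨ (¬ w x < 0 ∧ f x a = -x + (a + 1) * N) := by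
    intro x a
    by_cases hx : w x < 0
    · left; exact ⟨hx, by simp [f, hx]⟩
    · right; exact ⟨hx, by simp [f, hx]⟩
  have hset : {i : ℤ | 0 < i ∧ w i < 0} = ↑F := by
    ext i
    simp only [Set.mem_ofPred_eq, F, Finset.coe_biUnion, Finset.coe_Icc, Set.mem_Icc,
      Finset.coe_image, Finset.coe_range, Set.mem_iUnion, Set.mem_image, Set.mem_Iio, exists_prop]
    constructor
    · rintro ⟨hi, hwi⟩
      have hdm := Int.emod_add_mul_ediv i N
      have hr0 := Int.emod_nonneg i hNpos.ne'
      have hr1 := Int.emod_lt_of_pos i hNpos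
      set q := i / N with hq
      set r := i % N with hr
      have hq0 : 0 ≤ q := Int.ediv_nonneg hi.le hNpos.le
      have hieq : i = r + q * N := by linarith
      have hwr : w i = w r + q * N := by rw [hieq, aff_shift h]
      by_cases hr2 : r ≤ n
      · have hr3 : 1 ≤ r := by
          rcases lt_or_ge r 1 with h3 | h3
          · have : r = 0 := by omega
            rw [this, aff_zero h] at hwr
            have : 0 ≤ q * N := by positivity
            omega
          · exact h3
        have hwneg : w r < 0 := by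
          have : 0 ≤ q * N := by positivity
          omega
        have hdiv : w r / N < -q := by
          apply Int.ediv_lt_of_lt_mul hNpos
          linarith
        refine ⟨r, ⟨hr3, hr2⟩, q.natAbs, ?_, ?_⟩
        · omega
        · rcases hfmod r q.natAbs with h4 | h4
          · rw [h4.2, hieq]
            have : ((q.natAbs : ℕ) : ℤ) = q := Int.natAbs_of_nonneg hq0
            rw [this]
          · exact absurd hwneg h4.1
      · have hr3 : r ≠ n + 1 := by
          intro h3
          rw [h3, aff_mid h] at hwr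
          have : 0 ≤ q * N := by positivity
          omega
        have hx1 : 1 ≤ N - r := by omega
        have hx2 : N - r ≤ n := by omega
        have hwx : w (N - r) = N - w r := by
          have e : N - r = -r + 1 * N := by ring
          rw [e, aff_shift h, h.1]; ring
        have hwx2 : (q + 1) * N < w (N - r) := by
          rw [hwx]; linarith
        have hdiv : q + 1 ≤ w (N - r) / N := by
          rw [Int.le_ediv_iff_mul_le hNpos]; linarith
        refine ⟨N - r, ⟨hx1, hx2⟩, q.natAbs, ?_, ?_⟩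
        · omega
        · rcases hfmod (N - r) q.natAbs with h4 | h4
          · have : 0 ≤ (q + 1) * N := by positivity
            exact absurd h4.1 (by linarith)
          · rw [h4.2, hieq]
            have : ((q.natAbs : ℕ) : ℤ) = q := Int.natAbs_of_nonneg hq0
            rw [this]; ring
    · rintro ⟨x, ⟨hx1, hx2⟩, a, ha, rfl⟩
      rcases hfmod x a with ⟨h4, h5⟩ | ⟨h4, h5⟩
      · rw [h5]
        constructor
        · have : 0 ≤ (a : ℤ) * N := by positivity
          omega
        · rw [aff_shift h]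
          have hneg : w x / N < 0 := Int.ediv_lt_of_lt_mul hNpos (by simpa using h4)
          have ha' : (a : ℤ) < -(w x / N) := by omega
          have hdm := Int.emod_add_mul_ediv (w x) N
          have hr1 := Int.emod_lt_of_pos (w x) hNpos
          have : N * (w x / N + a) ≤ N * (-1) := by
            apply mul_le_mul_of_nonneg_left _ hNpos.le
            omega
          nlinarith
      · rw [h5]
        constructor
        · have : 0 ≤ (a : ℤ) * N := by positivity
          nlinarith
        · rw [aff_shift h, h.1]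
          have hpos : 0 ≤ w x / N := Int.ediv_nonneg (by omega) hNpos.le
          have ha' : (a : ℤ) + 1 ≤ (w x / N) := by omega
          have hdm := Int.emod_add_mul_ediv (w x) N
          have hr1 := Int.emod_nonneg (w x) hNpos.ne'
          have hne := aff_ne_mul h hx1 hx2 (a + 1)
          have : N * (a + 1) ≤ N * (w x / N) := mul_le_mul_of_nonneg_left ha' hNpos.le
          have h6 : (a + 1) * N ≤ w x := by linarith
          have h7 : (a + 1) * N ≠ w x := fun h => hne h.symm
          have h8 : (a + 1) * N < w x := lt_of_le_of_ne h6 h7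
          linarith
  rw [hset, Set.ncard_coe_finset, Finset.card_biUnion]
  · apply Finset.sum_congr rfl
    intro x hx
    rw [Finset.card_image_of_injective, Finset.card_range]
    intro a b hab
    rcases hfmod x a with ⟨h4, h5⟩ | ⟨h4, h5⟩ <;> rcases hfmod x b with ⟨h4', h5'⟩ | ⟨h4', h5'⟩
    · rw [h5, h5'] at hab
      have : ((a : ℤ) - b) * N = 0 := by linarith
      rcases mul_eq_zero.1 this with h | h <;> omega
    · exact absurd h4 h4'
    · exact absurd h4' h4
    · rw [h5, h5'] at hab
      have : ((a : ℤ) - b) * N = 0 := by linarith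
      rcases mul_eq_zero.1 this with h | h <;> omega
  · intro x hx y hy hxy
    rw [Function.onFun, Finset.disjoint_left]
    intro z hz hz'
    simp only [Finset.mem_image, Finset.mem_range] at hz hz'
    obtain ⟨a, _, rfl⟩ := hz
    obtain ⟨b, _, hb⟩ := hz'
    simp only [Finset.coe_Icc, Set.mem_Icc] at hx hy
    have key : ∀ u v : ℤ, -(2 * n : ℤ) ≤ u → u ≤ 2 * n → u = v * N → u = 0 := by
      intro u v hu hu' huv
      rcases lt_trichotomy v 0 with hv | hv | hv
      · nlinarith
      · rw [huv, hv]; ring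
      · nlinarith
    rcases hfmod x a with ⟨h4, h5⟩ | ⟨h4, h5⟩ <;> rcases hfmod y b with ⟨h4', h5'⟩ | ⟨h4', h5'⟩
    · rw [h5, h5'] at hb
      have := key (x - y) (b - a) (by omega) (by omega) (by linarith)
      omega
    · rw [h5, h5'] at hb
      have := key (x + y) (b + 1 - a) (by omega) (by omega) (by linarith)
      omega
    · rw [h5, h5'] at hb
      have := key (x + y) (a + 1 - b) (by omega) (by omega) (by linarith)
      omega
    · rw [h5, h5'] at hb
      have := key (x - y) (a - b) (by omega) (by omega) (by linarith)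
      omega

theorem even_iff (h : IsAffineSigned n w) :
    Even ({i : ℤ | 0 < i ∧ w i < 0}.ncard) ↔
      Even (∑ x ∈ Finset.Icc (1 : ℤ) n, (w x / (2 * n + 2))) := by
  rw [ncard_neg h]
  have : ∀ s : Finset ℤ, (Even (∑ x ∈ s, (w x / (2 * n + 2)).natAbs) ↔
      Even (∑ x ∈ s, (w x / (2 * n + 2)))) := by
    intro s
    classical
    induction s using Finset.induction_on with
    | empty => simp
    | insert a s ha ih =>
      rw [Finset.sum_insert ha, Finset.sum_insert ha, Nat.even_add, Int.even_add, ih,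
        Int.natAbs_even]
  exact this _

/-- the swap function -/
noncomputable def swpF (n : ℕ) (i j x : ℤ) : ℤ :=
  open Classical in
  if ((x : ZMod (2 * n + 2)) = i) then x - i + j
  else if ((x : ZMod (2 * n + 2)) = j) then x - j + i
  else if ((x : ZMod (2 * n + 2)) = -i) then x + i - j
  else if ((x : ZMod (2 * n + 2)) = -j) then x + j - i
  else x

theorem swpF_invol (n : ℕ) (i j : ℤ) (hi : (2 * i : ZMod (2 * n + 2)) ≠ 0)
    (hj : (2 * j : ZMod (2 * n + 2)) ≠ 0) (hij : (i : ZMod (2 * n + 2)) ≠ j) :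
    Function.Involutive (swpF n i j) := by
  intro x
  unfold swpF
  by_cases h1 : ((x : ZMod (2 * n + 2)) = i)
  · have e : (((x - i + j : ℤ) : ZMod (2 * n + 2))) = j := by push_cast; rw [h1]; ring
    simp only [h1, if_true]
    rw [if_neg (by rw [e]; exact fun h => hij h.symm), if_pos e]; ring
  · by_cases h2 : ((x : ZMod (2 * n + 2)) = j)
    · have e : (((x - j + i : ℤ) : ZMod (2 * n + 2))) = i := by push_cast; rw [h2]; ring
      rw [if_neg h1, if_pos h2, if_pos e]; ring
    · by_cases h3 : ((x : ZMod (2 * n + 2)) = -i)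
      · have e : (((x + i - j : ℤ) : ZMod (2 * n + 2))) = -j := by push_cast; rw [h3]; ring
        rw [if_neg h1, if_neg h2, if_pos h3]
        rw [if_neg, if_neg, if_neg, if_pos e]
        · ring
        · rw [e]; exact fun h => hij (by linear_combination h)
        · rw [e]; exact fun h => hj (by linear_combination -h)
        · rw [e]; exact fun h => h2 (by rw [h3]; linear_combination h)
      · by_cases h4 : ((x : ZMod (2 * n + 2)) = -j)
        · have e : (((x + j - i : ℤ) : ZMod (2 * n + 2))) = -i := by push_cast; rw [h4]; ring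
          rw [if_neg h1, if_neg h2, if_neg h3, if_pos h4]
          rw [if_neg, if_neg, if_pos e]
          · ring
          · rw [e]; exact fun h => h1 (by rw [h4]; linear_combination h)
          · rw [e]; exact fun h => hi (by linear_combination -h)
        · rw [if_neg h1, if_neg h2, if_neg h3, if_neg h4, if_neg h1, if_neg h2, if_neg h3, if_neg h4]


theorem cast_eq {x y : ℤ} : (x : ZMod (2 * n + 2)) = y ↔ ∃ k : ℤ, x = y + k * (2 * n + 2) := by
  rw [ZMod.intCast_eq_intCast_iff_dvd_sub]
  constructor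
  · rintro ⟨k, hk⟩
    refine ⟨-k, ?_⟩
    push_cast at hk
    linarith
  · rintro ⟨k, hk⟩
    refine ⟨-k, ?_⟩
    push_cast
    linarith

theorem cast_add_mul (x k : ℤ) : ((x + k * (2 * n + 2) : ℤ) : ZMod (2 * n + 2)) = x :=
  cast_eq.2 ⟨k, rfl⟩

/-- admissible pairs -/
structure Adm (n : ℕ) (i j : ℤ) : Prop where
  hi : (2 * i : ZMod (2 * n + 2)) ≠ 0
  hj : (2 * j : ZMod (2 * n + 2)) ≠ 0
  hij : (i : ZMod (2 * n + 2)) ≠ j

noncomputable def swp (n : ℕ) (i j : ℤ) (h : Adm n i j) : Equiv.Perm ℤ :=
  Function.Involutive.toPerm (swpF n i j) (swpF_invol n i j h.hi h.hj h.hij)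

theorem swp_1 {i j : ℤ} (h : Adm n i j) (k : ℤ) :
    swp n i j h (i + k * (2 * n + 2)) = j + k * (2 * n + 2) := by
  change swpF n i j (i + k * (2 * n + 2)) = _
  unfold swpF
  rw [if_pos (cast_add_mul i k)]; ring

theorem swp_2 {i j : ℤ} (h : Adm n i j) (k : ℤ) :
    swp n i j h (j + k * (2 * n + 2)) = i + k * (2 * n + 2) := by
  change swpF n i j (j + k * (2 * n + 2)) = _
  unfold swpF
  rw [if_neg, if_pos (cast_add_mul j k)]
  · ring
  · rw [cast_add_mul]; exact fun h' => h.hij h'.symm

theorem swp_3 {i j : ℤ} (h : Adm n i j) (k : ℤ) :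
    swp n i j h (-i + k * (2 * n + 2)) = -j + k * (2 * n + 2) := by
  change swpF n i j (-i + k * (2 * n + 2)) = _
  unfold swpF
  rw [cast_add_mul]
  rw [if_neg]
  · by_cases h2 : (((-i : ℤ) : ZMod (2 * n + 2)) = j)
    · rw [if_pos h2]; ring
    · rw [if_neg h2, if_pos (by push_cast; ring)]; ring
  · push_cast; exact fun h' => h.hi (by linear_combination -h')

theorem swp_4 {i j : ℤ} (h : Adm n i j) (k : ℤ) :
    swp n i j h (-j + k * (2 * n + 2)) = -i + k * (2 * n + 2) := by
  change swpF n i j (-j + k * (2 * n + 2)) = _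
  unfold swpF
  rw [cast_add_mul]
  by_cases h2 : (((-j : ℤ) : ZMod (2 * n + 2)) = i)
  · rw [if_pos h2]; ring
  · rw [if_neg h2, if_neg, if_neg, if_pos (by push_cast; ring)]
    · ring
    · push_cast; exact fun h' => h.hij (by linear_combination h')
    · push_cast; exact fun h' => h.hj (by linear_combination -h')

theorem swp_5 {i j : ℤ} (h : Adm n i j) {x : ℤ} (h1 : (x : ZMod (2 * n + 2)) ≠ i)
    (h2 : (x : ZMod (2 * n + 2)) ≠ j) (h3 : (x : ZMod (2 * n + 2)) ≠ -i)
    (h4 : (x : ZMod (2 * n + 2)) ≠ -j) : swp n i j h x = x := by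
  change swpF n i j x = _
  unfold swpF
  rw [if_neg h1, if_neg h2, if_neg h3, if_neg h4]

theorem swp_cases {i j : ℤ} (x : ℤ) :
    (∃ k : ℤ, x = i + k * (2 * n + 2)) ∨ (∃ k : ℤ, x = j + k * (2 * n + 2)) ∨
      (∃ k : ℤ, x = -i + k * (2 * n + 2)) ∨ (∃ k : ℤ, x = -j + k * (2 * n + 2)) ∨
      ((x : ZMod (2 * n + 2)) ≠ i ∧ (x : ZMod (2 * n + 2)) ≠ j ∧
        (x : ZMod (2 * n + 2)) ≠ -i ∧ (x : ZMod (2 * n + 2)) ≠ -j) := by
  by_cases h1 : (x : ZMod (2 * n + 2)) = i
  · exact Or.inl (cast_eq.1 h1)
  by_cases h2 : (x : ZMod (2 * n + 2)) = j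
  · exact Or.inr (Or.inl (cast_eq.1 h2))
  by_cases h3 : (x : ZMod (2 * n + 2)) = -i
  · exact Or.inr (Or.inr (Or.inl (cast_eq.1 (by rw [h3]; push_cast; ring))))
  by_cases h4 : (x : ZMod (2 * n + 2)) = -j
  · exact Or.inr (Or.inr (Or.inr (Or.inl (cast_eq.1 (by rw [h4]; push_cast; ring)))))
  exact Or.inr (Or.inr (Or.inr (Or.inr ⟨h1, h2, h3, h4⟩)))

theorem swp_aff {i j : ℤ} (h : Adm n i j) : IsAffineSigned n (swp n i j h) := by
  constructor
  · intro x
    rcases swp_cases (n := n) (i := i) (j := j) x with ⟨k, rfl⟩ | ⟨k, rfl⟩ | ⟨k, rfl⟩ | ⟨k, rfl⟩ | ⟨h1, h2, h3, h4⟩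
    · rw [swp_1]
      have := swp_3 h (-k)
      rw [show -(i + k * (2 * (n : ℤ) + 2)) = -i + -k * (2 * n + 2) by ring, this]; ring
    · rw [swp_2]
      have := swp_4 h (-k)
      rw [show -(j + k * (2 * (n : ℤ) + 2)) = -j + -k * (2 * n + 2) by ring, this]; ring
    · rw [swp_3]
      have := swp_1 h (-k)
      rw [show -(-i + k * (2 * (n : ℤ) + 2)) = i + -k * (2 * n + 2) by ring, this]; ring
    · rw [swp_4]
      have := swp_2 h (-k)
      rw [show -(-j + k * (2 * (n : ℤ) + 2)) = j + -k * (2 * n + 2) by ring, this]; ring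
    · rw [swp_5 h h1 h2 h3 h4, swp_5 h]
      · push_cast; exact fun h' => h3 (by linear_combination -h')
      · push_cast; exact fun h' => h4 (by linear_combination -h')
      · push_cast; exact fun h' => h1 (by linear_combination -h')
      · push_cast; exact fun h' => h2 (by linear_combination -h')
  · intro x
    rcases swp_cases (n := n) (i := i) (j := j) x with ⟨k, rfl⟩ | ⟨k, rfl⟩ | ⟨k, rfl⟩ | ⟨k, rfl⟩ | ⟨h1, h2, h3, h4⟩
    · rw [swp_1]
      have := swp_1 h (k + 1)
      rw [show (i + k * (2 * (n : ℤ) + 2)) + (2 * n + 2) = i + (k + 1) * (2 * n + 2) by ring, this]; ring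
    · rw [swp_2]
      have := swp_2 h (k + 1)
      rw [show (j + k * (2 * (n : ℤ) + 2)) + (2 * n + 2) = j + (k + 1) * (2 * n + 2) by ring, this]; ring
    · rw [swp_3]
      have := swp_3 h (k + 1)
      rw [show (-i + k * (2 * (n : ℤ) + 2)) + (2 * n + 2) = -i + (k + 1) * (2 * n + 2) by ring, this]; ring
    · rw [swp_4]
      have := swp_4 h (k + 1)
      rw [show (-j + k * (2 * (n : ℤ) + 2)) + (2 * n + 2) = -j + (k + 1) * (2 * n + 2) by ring, this]; ring
    · have e : ((x + (2 * n + 2) : ℤ) : ZMod (2 * n + 2)) = x := by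
        have := cast_add_mul (n := n) x 1
        rwa [one_mul] at this
      rw [swp_5 h h1 h2 h3 h4, swp_5 h]
      · rw [e]; exact h1
      · rw [e]; exact h2
      · rw [e]; exact h3
      · rw [e]; exact h4

theorem swp_isTransposition {i j : ℤ} (h : Adm n i j) : IsTransposition n i j (swp n i j h) := by
  constructor
  · intro σ hσ
    obtain ⟨k, hk | hk⟩ := mem_sym.1 hσ
    · rw [hk, hk, swp_1, swp_2]; exact ⟨rfl, rfl⟩
    · rw [hk, hk, swp_3, swp_4]; exact ⟨rfl, rfl⟩
  · intro x hx
    have key : ∀ k : ℤ, (x ≠ i + k * (2 * n + 2) ∧ x ≠ j + k * (2 * n + 2)) ∧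
        (x ≠ -i + k * (2 * n + 2) ∧ x ≠ -j + k * (2 * n + 2)) := by
      intro k
      have e1 : Equiv.addRight (k * (2 * (n : ℤ) + 2)) ∈ symGroup n :=
        mem_sym.2 ⟨k, Or.inl fun x => by simp⟩
      have e2 : (Equiv.addRight (k * (2 * (n : ℤ) + 2))) * Equiv.neg ℤ ∈ symGroup n :=
        mem_sym.2 ⟨k, Or.inr fun x => by simp⟩
      have h1 := hx _ e1
      have h2 := hx _ e2
      simp only [Equiv.coe_addRight, Equiv.Perm.coe_mul, Function.comp_apply, Equiv.neg_apply] at h1 h2
      exact ⟨h1, h2⟩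
    rcases swp_cases (n := n) (i := i) (j := j) x with ⟨k, hk⟩ | ⟨k, hk⟩ | ⟨k, hk⟩ | ⟨k, hk⟩ | ⟨h1, h2, h3, h4⟩
    · exact absurd hk (key k).1.1
    · exact absurd hk (key k).1.2
    · exact absurd hk (key k).2.1
    · exact absurd hk (key k).2.2
    · exact swp_5 h h1 h2 h3 h4


/-- the action of a reflection on the window -/
structure Act (n : ℕ) (t : Equiv.Perm ℤ) (i b l s : ℤ) : Prop where
  aff : IsAffineSigned n t
  i1 : 1 ≤ i
  ib : i ≤ b
  bn : b ≤ n
  hs : s = 1 ∨ s = -1
  hbi : b = i → s = -1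
  ti : t i = s * b + l * (2 * n + 2)
  tb : t b = s * (i - l * (2 * n + 2))
  tx : ∀ x : ℤ, 1 ≤ x → x ≤ n → x ≠ i → x ≠ b → t x = x

theorem Act.wi {i b l s : ℤ} (h : Act n t i b l s) (hw : IsAffineSigned n w) :
    (w * t) i = s * w b + l * (2 * n + 2) := by
  rw [Equiv.Perm.mul_apply, h.ti]
  rcases h.hs with rfl | rfl
  · rw [one_mul, one_mul, aff_shift hw]
  · rw [aff_shift hw, show (-1 : ℤ) * b = -b by ring, hw.1]; ring

theorem Act.wb {i b l s : ℤ} (h : Act n t i b l s) (hw : IsAffineSigned n w) :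
    (w * t) b = s * (w i - l * (2 * n + 2)) := by
  rw [Equiv.Perm.mul_apply, h.tb]
  rcases h.hs with rfl | rfl
  · rw [one_mul, one_mul]
    have := aff_shift hw i (-l)
    rw [show i - l * (2 * (n : ℤ) + 2) = i + -l * (2 * n + 2) by ring, this]; ring
  · have := aff_shift hw (-i) l
    rw [show -1 * (i - l * (2 * (n : ℤ) + 2)) = -i + l * (2 * n + 2) by ring, this, hw.1]; ring

theorem Act.wx {i b l s : ℤ} (h : Act n t i b l s) {x : ℤ} (h1 : 1 ≤ x) (h2 : x ≤ n)
    (h3 : x ≠ i) (h4 : x ≠ b) : (w * t) x = w x := by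
  rw [Equiv.Perm.mul_apply, h.tx x h1 h2 h3 h4]

/-- difference of sums of functions agreeing off two points -/
theorem sum_diff {m : ℤ} (f g : ℤ → ℤ) {i b : ℤ} (i1 : 1 ≤ i) (im : i ≤ m) (b1 : 1 ≤ b) (bm : b ≤ m)
    (hx : ∀ x : ℤ, 1 ≤ x → x ≤ m → x ≠ i → x ≠ b → f x = g x) :
    (b ≠ i → ∑ x ∈ Finset.Icc 1 m, f x = ∑ x ∈ Finset.Icc 1 m, g x + (f i - g i) + (f b - g b)) ∧
    (b = i → ∑ x ∈ Finset.Icc 1 m, f x = ∑ x ∈ Finset.Icc 1 m, g x + (f i - g i)) := by
  have hi : i ∈ Finset.Icc 1 m := Finset.mem_Icc.2 ⟨i1, im⟩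
  constructor
  · intro hbi
    have hb : b ∈ (Finset.Icc 1 m).erase i := Finset.mem_erase.2 ⟨hbi, Finset.mem_Icc.2 ⟨b1, bm⟩⟩
    rw [← Finset.add_sum_erase _ f hi, ← Finset.add_sum_erase _ g hi,
      ← Finset.add_sum_erase _ f hb, ← Finset.add_sum_erase _ g hb]
    have : ∑ x ∈ ((Finset.Icc 1 m).erase i).erase b, f x = ∑ x ∈ ((Finset.Icc 1 m).erase i).erase b, g x := by
      apply Finset.sum_congr rfl
      intro x hxm
      simp only [Finset.mem_erase, Finset.mem_Icc] at hxm
      exact hx x hxm.2.2.1 hxm.2.2.2 hxm.2.1 hxm.1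
    rw [this]; ring
  · rintro rfl
    rw [← Finset.add_sum_erase _ f hi, ← Finset.add_sum_erase _ g hi]
    have : ∑ x ∈ ((Finset.Icc 1 m).erase b), f x = ∑ x ∈ ((Finset.Icc 1 m).erase b), g x := by
      apply Finset.sum_congr rfl
      intro x hxm
      simp only [Finset.mem_erase, Finset.mem_Icc] at hxm
      exact hx x hxm.2.1 hxm.2.2 hxm.1 hxm.1
    rw [this]; ring

/-- twice the defect -/
theorem Act.tvd_mul {i b l s : ℤ} (h : Act n t i b l s) (hw : IsAffineSigned n w) :
    (b ≠ i → tvd n (w * t) = tvd n w - |w i - i| - |w b - b| + |s * w b + l * (2 * n + 2) - i|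
      + |w i - (s * b + l * (2 * n + 2))|) ∧
    (b = i → tvd n (w * t) = tvd n w - |w i - i| + |-(w i) + l * (2 * n + 2) - i|) := by
  have hi2 : i ≤ n := h.ib.trans h.bn
  have hb1 : 1 ≤ b := h.i1.trans h.ib
  have key := sum_diff (m := n) (fun x => |(w * t) x - x|) (fun x => |w x - x|) h.i1 hi2 hb1 h.bn
    (fun x h1 h2 h3 h4 => by simp only [h.wx h1 h2 h3 h4])
  constructor
  · intro hbi
    have k1 := key.1 hbi
    simp only [h.wi hw, h.wb hw] at k1
    unfold tvd
    rw [k1]
    have : |s * (w i - l * (2 * n + 2)) - b| = |w i - (s * b + l * (2 * n + 2))| := by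
      rcases h.hs with rfl | rfl
      · congr 1; ring
      · rw [← abs_neg]; congr 1; ring
    rw [this]; ring
  · intro hbi
    have k1 := key.2 hbi
    simp only [h.wi hw] at k1
    unfold tvd
    rw [k1, h.hbi hbi, hbi]
    have : -1 * w i + l * (2 * (n : ℤ) + 2) - i = -(w i) + l * (2 * n + 2) - i := by ring
    rw [this]; ring

theorem tvd_one : tvd n 1 = 0 := by simp [tvd]

theorem aff_one : IsAffineSigned n 1 := ⟨fun i => by simp, fun i => by simp⟩

theorem Act.tvd_self {i b l s : ℤ} (h : Act n t i b l s) :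
    (b ≠ i → tvd n t = 2 * |s * b + l * (2 * n + 2) - i|) ∧
    (b = i → tvd n t = |s * b + l * (2 * n + 2) - i|) := by
  have key := h.tvd_mul aff_one (w := 1)
  rw [one_mul, tvd_one] at key
  constructor
  · intro hbi
    have k1 := key.1 hbi
    simp only [Equiv.Perm.one_apply, sub_self, abs_zero] at k1
    rw [k1, abs_sub_comm i]; ring
  · intro hbi
    have k1 := key.2 hbi
    simp only [Equiv.Perm.one_apply, sub_self, abs_zero] at k1
    rw [k1, h.hbi hbi, hbi, show (-1 : ℤ) * i = -i by ring]; ring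

/-- parity sum -/
noncomputable def par (n : ℕ) (w : Equiv.Perm ℤ) : ℤ := ∑ x ∈ Finset.Icc (1 : ℤ) n, (w x / (2 * n + 2))

theorem neg_ediv_of_not_dvd {a N : ℤ} (hN : 0 < N) (h : ∀ k : ℤ, a ≠ k * N) : (-a) / N = -(a / N) - 1 := by
  have h1 := Int.emod_add_mul_ediv a N
  have h2 := Int.emod_nonneg a hN.ne'
  have h3 := Int.emod_lt_of_pos a hN
  have h4 : a % N ≠ 0 := fun h0 => h (a / N) (by rw [h0] at h1; linarith)
  have : -a = (N - a % N) + N * (-(a / N) - 1) := by linarith
  rw [this, Int.add_mul_ediv_left _ _ hN.ne', Int.ediv_eq_zero_of_lt (by omega) (by omega)]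
  ring

theorem Act.par_mul {i b l s : ℤ} (h : Act n t i b l s) (hw : IsAffineSigned n w) :
    (b ≠ i → (Even (par n (w * t)) ↔ Even (par n w))) ∧
    (b = i → (Even (par n (w * t) - par n w) ↔ Odd l)) := by
  have hNpos : (0 : ℤ) < 2 * n + 2 := by positivity
  have hi2 : i ≤ n := h.ib.trans h.bn
  have hb1 : 1 ≤ b := h.i1.trans h.ib
  have key := sum_diff (m := n) (fun x => (w * t) x / (2 * n + 2)) (fun x => w x / (2 * n + 2)) h.i1 hi2 hb1 h.bn
    (fun x h1 h2 h3 h4 => by simp only [h.wx h1 h2 h3 h4])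
  have hni := neg_ediv_of_not_dvd hNpos (aff_ne_mul hw h.i1 hi2)
  have hnb := neg_ediv_of_not_dvd hNpos (aff_ne_mul hw hb1 h.bn)
  constructor
  · intro hbi
    have k1 := key.1 hbi
    simp only [h.wi hw, h.wb hw] at k1
    have k2 : par n (w * t) = par n w +
        ((s * w b + l * (2 * n + 2)) / (2 * n + 2) - w i / (2 * n + 2)) +
        (s * (w i - l * (2 * n + 2)) / (2 * n + 2) - w b / (2 * n + 2)) := k1
    rw [k2]
    rcases h.hs with rfl | rfl
    · rw [one_mul, one_mul, Int.add_mul_ediv_right _ _ hNpos.ne',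
        show w i - l * (2 * (n : ℤ) + 2) = w i + -l * (2 * n + 2) by ring,
        Int.add_mul_ediv_right _ _ hNpos.ne']
      rw [show par n w + (w b / (2 * (n : ℤ) + 2) + l - w i / (2 * n + 2)) +
        (w i / (2 * n + 2) + -l - w b / (2 * n + 2)) = par n w by ring]
    · rw [show (-1 : ℤ) * w b = -w b by ring, Int.add_mul_ediv_right _ _ hNpos.ne', hnb,
        show -1 * (w i - l * (2 * (n : ℤ) + 2)) = -w i + l * (2 * n + 2) by ring,
        Int.add_mul_ediv_right _ _ hNpos.ne', hni]
      rw [show par n w + (-(w b / (2 * (n : ℤ) + 2)) - 1 + l - w i / (2 * n + 2)) +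
        (-(w i / (2 * n + 2)) - 1 + l - w b / (2 * n + 2)) = par n w +
          2 * (l - 1 - w b / (2 * n + 2) - w i / (2 * n + 2)) by ring]
      rw [Int.even_add]
      simp
  · intro hbi
    have k1 := key.2 hbi
    simp only [h.wi hw] at k1
    have k2 : par n (w * t) = par n w +
        ((s * w b + l * (2 * n + 2)) / (2 * n + 2) - w i / (2 * n + 2)) := k1
    rw [k2, h.hbi hbi, hbi, show (-1 : ℤ) * w i = -w i by ring, Int.add_mul_ediv_right _ _ hNpos.ne', hni]
    rw [show par n w + (-(w i / (2 * (n : ℤ) + 2)) - 1 + l - w i / (2 * n + 2)) - par n w =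
      (l + 1) - 2 * (w i / (2 * n + 2) + 1) by ring, Int.even_sub]
    simp only [even_two, Even.mul_right, iff_true]
    rw [Int.even_add_one, Int.not_even_iff_odd]


theorem mem_SB_iff (h : IsAffineSigned n w) : w ∈ SB n ↔ Even (par n w) := by
  constructor
  · intro hw; exact (even_iff h).1 hw.2
  · intro hp; exact ⟨h, (even_iff h).2 hp⟩

theorem IsTransposition.map {i j : ℤ} (h : IsTransposition n i j t) {σ : Equiv.Perm ℤ}
    (hσ : σ ∈ symGroup n) : IsTransposition n (σ i) (σ j) t := by
  refine ⟨fun τ hτ => ?_, fun x hx => ?_⟩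
  · exact h.1 (τ * σ) (Subgroup.mul_mem _ hτ hσ)
  · apply h.2 x
    intro τ hτ
    have := hx (τ * σ⁻¹) (Subgroup.mul_mem _ hτ (Subgroup.inv_mem _ hσ))
    simpa using this

theorem IsTransposition.symm {i j : ℤ} (h : IsTransposition n i j t) : IsTransposition n j i t :=
  ⟨fun τ hτ => (h.1 τ hτ).symm, fun x hx => h.2 x (fun σ hσ => (hx σ hσ).symm)⟩

theorem IsTransposition.invol {i j : ℤ} (h : IsTransposition n i j t) : t * t = 1 := by
  ext x
  rw [Equiv.Perm.mul_apply, Equiv.Perm.one_apply]
  by_cases hx : ∀ σ ∈ symGroup n, x ≠ σ i ∧ x ≠ σ j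
  · rw [h.2 x hx, h.2 x hx]
  · push Not at hx
    obtain ⟨σ, hσ, h1⟩ := hx
    by_cases h2 : x = σ i
    · rw [h2, (h.1 σ hσ).1, (h.1 σ hσ).2]
    · rw [h1 h2, (h.1 σ hσ).2, (h.1 σ hσ).1]

/-- every integer that is not a multiple of `n+1` can be moved into the window -/
theorem exists_rep (x : ℤ) (hx : ∀ k : ℤ, x ≠ k * (n + 1)) :
    ∃ σ ∈ symGroup n, 1 ≤ σ x ∧ σ x ≤ n := by
  have hN : (0 : ℤ) < 2 * n + 2 := by positivity
  have h1 := Int.emod_add_mul_ediv x (2 * n + 2)
  have h2 := Int.emod_nonneg x hN.ne'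
  have h3 := Int.emod_lt_of_pos x hN
  set q := x / (2 * n + 2)
  set r := x % (2 * n + 2)
  have hr0 : r ≠ 0 := fun h0 => hx (2 * q) (by rw [h0] at h1; linarith)
  have hr1 : r ≠ n + 1 := fun h0 => hx (2 * q + 1) (by rw [h0] at h1; linarith)
  by_cases hr : r ≤ n
  · refine ⟨Equiv.addRight (-q * (2 * (n : ℤ) + 2)), mem_sym.2 ⟨-q, Or.inl fun x => by simp⟩, ?_⟩
    have : (Equiv.addRight (-q * (2 * (n : ℤ) + 2))) x = r := by
      rw [Equiv.coe_addRight]; linarith
    rw [this]; omega
  · refine ⟨Equiv.addRight ((q + 1) * (2 * (n : ℤ) + 2)) * Equiv.neg ℤ,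
      mem_sym.2 ⟨q + 1, Or.inr fun x => by simp⟩, ?_⟩
    have : (Equiv.addRight ((q + 1) * (2 * (n : ℤ) + 2)) * Equiv.neg ℤ) x = 2 * n + 2 - r := by
      rw [Equiv.Perm.mul_apply, Equiv.coe_addRight, Equiv.neg_apply]; linarith
    rw [this]; omega

theorem IsTransposition.ne_mul {i j : ℤ} (h : IsTransposition n i j t) (hij : i ≠ j) (k : ℤ) :
    i ≠ k * (n + 1) := by
  intro hk
  have e : Equiv.addRight (k * (2 * (n : ℤ) + 2)) * Equiv.neg ℤ ∈ symGroup n :=
    mem_sym.2 ⟨k, Or.inr fun x => by simp⟩
  have h1 := (h.1 _ e).1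
  have h2 := (h.1 1 (Subgroup.one_mem _)).1
  simp only [Equiv.Perm.mul_apply, Equiv.coe_addRight, Equiv.neg_apply, Equiv.Perm.one_apply] at h1 h2
  have : -i + k * (2 * n + 2) = i := by rw [hk]; ring
  rw [this, h2] at h1
  apply hij
  have : 2 * j = 2 * (k * (n + 1)) := by linarith
  linarith

/-- normal form of a reflection -/
theorem exists_act_aux {i j b : ℤ} (h : IsTransposition n i j t) (hij : i ≠ j) (ht : t ∈ SB n)
    (h1 : 1 ≤ i) (hib : i ≤ b) (hbn : b ≤ n) {s l : ℤ} (hs : s = 1 ∨ s = -1)
    (hj : j = s * b + l * (2 * n + 2)) :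
    Act n t i b l s ∧ i < |s * b + l * (2 * n + 2)| ∧ (b = i → l ≠ 0) := by
  have haff := ht.1
  have hN : (0 : ℤ) < 2 * n + 2 := by positivity
  have ti : t i = j := by simpa using (h.1 1 (Subgroup.one_mem _)).1
  have tj : t j = i := by simpa using (h.1 1 (Subgroup.one_mem _)).2
  have hbi : b = i → s = -1 := by
    intro hb
    rcases hs with rfl | rfl
    · exfalso
      have h3 := aff_shift haff i l
      rw [show i + l * (2 * (n : ℤ) + 2) = j by rw [hj, hb]; ring, tj, ti, hj, hb] at h3
      have h4 : l * (2 * (n : ℤ) + 2) = 0 := by linarith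
      apply hij
      rw [hj, hb, h4]; ring
    · rfl
  have tb : t b = s * (i - l * (2 * n + 2)) := by
    rcases hs with rfl | rfl
    · have h3 := aff_shift haff j (-l)
      rw [show j + -l * (2 * (n : ℤ) + 2) = b by rw [hj]; ring, tj] at h3
      rw [h3]; ring
    · have h3 := aff_shift haff (-j) l
      rw [show -j + l * (2 * (n : ℤ) + 2) = b by rw [hj]; ring, haff.1, tj] at h3
      rw [h3]; ring
  have small : ∀ u v : ℤ, -(2 * n : ℤ) ≤ u → u ≤ 2 * n → u = v * (2 * n + 2) → v = 0 := by
    intro u v hu hu' huv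
    rcases lt_trichotomy v 0 with hv | hv | hv
    · nlinarith
    · exact hv
    · nlinarith
  have tx : ∀ x : ℤ, 1 ≤ x → x ≤ n → x ≠ i → x ≠ b → t x = x := by
    intro x hx1 hxn hxi hxb
    apply h.2 x
    intro σ hσ
    obtain ⟨k, hk | hk⟩ := mem_sym.1 hσ
    · rw [hk, hk]
      constructor
      · intro he
        have := small (x - i) k (by omega) (by omega) (by linarith)
        rw [this] at he; apply hxi; linarith
      · intro he
        rcases hs with rfl | rfl
        · have := small (x - b) (l + k) (by omega) (by omega) (by rw [hj] at he; linarith)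
          apply hxb
          have h5 : (l + k) * (2 * (n : ℤ) + 2) = 0 := by rw [this]; ring
          rw [hj] at he; linarith
        · have := small (x + b) (l + k) (by omega) (by omega) (by rw [hj] at he; linarith)
          have h5 : (l + k) * (2 * (n : ℤ) + 2) = 0 := by rw [this]; ring
          rw [hj] at he
          have : x + b = 0 := by linarith
          omega
    · rw [hk, hk]
      constructor
      · intro he
        have := small (x + i) k (by omega) (by omega) (by linarith)
        rw [this] at he; omega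
      · intro he
        rcases hs with rfl | rfl
        · have := small (x + b) (k - l) (by omega) (by omega) (by rw [hj] at he; linarith)
          have h5 : (k - l) * (2 * (n : ℤ) + 2) = 0 := by rw [this]; ring
          rw [hj] at he
          have : x + b = 0 := by linarith
          omega
        · have := small (x - b) (k - l) (by omega) (by omega) (by rw [hj] at he; linarith)
          have h5 : (k - l) * (2 * (n : ℤ) + 2) = 0 := by rw [this]; ring
          rw [hj] at he
          apply hxb; linarith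
  have act : Act n t i b l s := ⟨haff, h1, hib, hbn, hs, hbi, by rw [ti, hj], tb, tx⟩
  have hl : b = i → l ≠ 0 := by
    intro hb hl
    have k1 := (act.par_mul aff_one).2 hb
    rw [one_mul] at k1
    have k2 := (mem_SB_iff haff).1 ht
    have k3 : par n 1 = 0 := by
      unfold par
      apply Finset.sum_eq_zero
      intro x hx
      rw [Finset.mem_Icc] at hx
      rw [Equiv.Perm.one_apply]
      exact Int.ediv_eq_zero_of_lt (by omega) (by omega)
    rw [k3, sub_zero, hl] at k1
    have := k1.1 k2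
    simp at this
  refine ⟨act, ?_, hl⟩
  rcases lt_trichotomy l 0 with h0 | h0 | h0
  · have h5 : l * (2 * (n : ℤ) + 2) ≤ -1 * (2 * n + 2) :=
      mul_le_mul_of_nonneg_right (by omega) hN.le
    rcases hs with rfl | rfl
    · rw [abs_of_neg] <;> linarith
    · rw [abs_of_neg] <;> linarith
  · have hb : b ≠ i := fun hb => hl hb h0
    have : i < b := lt_of_le_of_ne hib (Ne.symm hb)
    rw [h0]
    rcases hs with rfl | rfl
    · rw [abs_of_pos] <;> linarith
    · rw [abs_of_neg] <;> linarith
  · have h5 : 1 * (2 * (n : ℤ) + 2) ≤ l * (2 * n + 2) :=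
      mul_le_mul_of_nonneg_right (by omega) hN.le
    rcases hs with rfl | rfl
    · rw [abs_of_pos] <;> linarith
    · rw [abs_of_pos] <;> linarith

theorem exists_act (ht : t ∈ T n) : ∃ i b l s : ℤ, Act n t i b l s ∧
    i < |s * b + l * (2 * n + 2)| ∧ (b = i → l ≠ 0) := by
  obtain ⟨hS, i0, j0, hne, htr⟩ := ht
  obtain ⟨σ, hσ, hi1, hi2⟩ := exists_rep i0 (htr.ne_mul hne)
  have htr2 := htr.map hσ
  set i := σ i0
  set j := σ j0
  have hne2 : i ≠ j := fun h => hne (σ.injective h)
  obtain ⟨τ, hτ, hb1, hb2⟩ := exists_rep j (htr2.symm.ne_mul hne2.symm)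
  by_cases hib : i ≤ τ j
  · obtain ⟨k, hk | hk⟩ := mem_sym.1 hτ
    · refine ⟨i, τ j, -k, 1, exists_act_aux htr2 hne2 hS hi1 hib hb2 (Or.inl rfl) ?_⟩
      rw [hk]; ring
    · refine ⟨i, τ j, k, -1, exists_act_aux htr2 hne2 hS hi1 hib hb2 (Or.inr rfl) ?_⟩
      rw [hk]; ring
  · have htr3 := (htr2.map hτ).symm
    have hne3 : τ j ≠ τ i := fun h => hne2 (τ.injective h).symm
    obtain ⟨k, hk | hk⟩ := mem_sym.1 hτ
    · refine ⟨τ j, i, k, 1, exists_act_aux htr3 hne3 hS hb1 (by omega) hi2 (Or.inl rfl) ?_⟩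
      rw [hk i]; ring
    · refine ⟨τ j, i, k, -1, exists_act_aux htr3 hne3 hS hb1 (by omega) hi2 (Or.inr rfl) ?_⟩
      rw [hk i]; ring


/-- number of negative values on the window part `[1,k]` -/
noncomputable def nc (w : Equiv.Perm ℤ) (k : ℤ) : ℤ := ∑ x ∈ Finset.Icc (1 : ℤ) k, if w x < 0 then 1 else 0

/-- good but not very good -/
def Bd (w : Equiv.Perm ℤ) (k : ℤ) : Prop := (∀ x : ℤ, 1 ≤ x → x ≤ k → |w x| ≤ k) ∧ Odd (nc w k)

noncomputable def badset (n : ℕ) (w : Equiv.Perm ℤ) : Finset ℤ :=
  open Classical in (Finset.Icc (1 : ℤ) (n - 1)).filter (Bd w)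

theorem mem_badset {k : ℤ} : k ∈ badset n w ↔ 1 ≤ k ∧ k ≤ n - 1 ∧ Bd w k := by
  unfold badset
  simp only [Finset.mem_filter, Finset.mem_Icc, and_assoc]

theorem Act.bd_iff_lt {i b l s : ℤ} (h : Act n t i b l s) {k : ℤ} (hk : k < i) :
    Bd (w * t) k ↔ Bd w k := by
  have hx : ∀ x : ℤ, 1 ≤ x → x ≤ k → (w * t) x = w x := by
    intro x h1 h2
    have := h.ib
    have := h.bn
    exact h.wx h1 (by omega) (by omega) (by omega)
  unfold Bd nc
  have e : ∑ x ∈ Finset.Icc (1 : ℤ) k, (if (w * t) x < 0 then (1 : ℤ) else 0) =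
      ∑ x ∈ Finset.Icc (1 : ℤ) k, (if w x < 0 then 1 else 0) := by
    apply Finset.sum_congr rfl
    intro x hxm
    rw [Finset.mem_Icc] at hxm
    rw [hx x hxm.1 hxm.2]
  rw [e]
  constructor
  · rintro ⟨h1, h2⟩
    exact ⟨fun x h3 h4 => by rw [← hx x h3 h4]; exact h1 x h3 h4, h2⟩
  · rintro ⟨h1, h2⟩
    exact ⟨fun x h3 h4 => by rw [hx x h3 h4]; exact h1 x h3 h4, h2⟩

theorem aff_ne_zero (hw : IsAffineSigned n w) {x : ℤ} (h1 : 1 ≤ x) (h2 : x ≤ n) : w x ≠ 0 := by
  have := aff_ne_mul hw h1 h2 0
  simpa using this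

theorem Act.bd_iff_ge {i b s : ℤ} (h : Act n t i b 0 s) (hw : IsAffineSigned n w) (hbi : b ≠ i)
    {k : ℤ} (hk : b ≤ k) (hkn : k ≤ n) : Bd (w * t) k ↔ Bd w k := by
  have hi1 := h.i1
  have hib := h.ib
  have hb1 : 1 ≤ b := hi1.trans hib
  have hbn := h.bn
  have wi := h.wi hw
  have wb := h.wb hw
  rw [zero_mul, add_zero] at wi
  rw [zero_mul, sub_zero] at wb
  have hx : ∀ x : ℤ, 1 ≤ x → x ≤ k → x ≠ i → x ≠ b → (w * t) x = w x := by
    intro x h1 h2 h3 h4
    exact h.wx h1 (by omega) h3 h4
  have habs_i : |(w * t) i| = |w b| := by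
    rw [wi]; rcases h.hs with rfl | rfl
    · rw [one_mul]
    · rw [neg_one_mul, abs_neg]
  have habs_b : |(w * t) b| = |w i| := by
    rw [wb]; rcases h.hs with rfl | rfl
    · rw [one_mul]
    · rw [neg_one_mul, abs_neg]
  have e := (sum_diff (m := k) (fun x => (if (w * t) x < 0 then (1 : ℤ) else 0))
    (fun x => (if w x < 0 then (1 : ℤ) else 0)) hi1 (by omega) hb1 hk
    (fun x h1 h2 h3 h4 => by simp only [hx x h1 h2 h3 h4])).1 hbi
  have hpar : Odd (nc (w * t) k) ↔ Odd (nc w k) := by
    unfold nc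
    rw [e]
    have h0i := aff_ne_zero hw hi1 (by omega : i ≤ (n : ℤ))
    have h0b := aff_ne_zero hw hb1 (by omega : b ≤ (n : ℤ))
    simp only [wi, wb]
    generalize (∑ x ∈ Finset.Icc (1 : ℤ) k, if w x < 0 then (1 : ℤ) else 0) = S
    rcases h.hs with rfl | rfl
    · rw [one_mul, one_mul]
      rw [show S + ((if w b < 0 then (1 : ℤ) else 0) - if w i < 0 then 1 else 0) +
        ((if w i < 0 then 1 else 0) - if w b < 0 then 1 else 0) = S by ring]
    · rw [neg_one_mul, neg_one_mul]
      have e1 : (if -w b < 0 then (1 : ℤ) else 0) = 1 - if w b < 0 then 1 else 0 := by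
        split_ifs <;> omega
      have e2 : (if -w i < 0 then (1 : ℤ) else 0) = 1 - if w i < 0 then 1 else 0 := by
        split_ifs <;> omega
      rw [e1, e2]
      rw [show S + ((1 - if w b < 0 then (1 : ℤ) else 0) - if w i < 0 then 1 else 0) +
        ((1 - if w i < 0 then 1 else 0) - if w b < 0 then 1 else 0) =
        S + 2 * (1 - (if w b < 0 then (1 : ℤ) else 0) - (if w i < 0 then 1 else 0)) by ring,
        Int.odd_add]
      simp
  unfold Bd
  rw [hpar]
  constructor
  · rintro ⟨h1, h2⟩
    refine ⟨fun x h3 h4 => ?_, h2⟩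
    by_cases hxi : x = i
    · rw [hxi, ← habs_b]; exact h1 b hb1 hk
    · by_cases hxb : x = b
      · rw [hxb, ← habs_i]; exact h1 i hi1 (by omega)
      · rw [← hx x h3 h4 hxi hxb]; exact h1 x h3 h4
  · rintro ⟨h1, h2⟩
    refine ⟨fun x h3 h4 => ?_, h2⟩
    by_cases hxi : x = i
    · rw [hxi, habs_i]; exact h1 b hb1 hk
    · by_cases hxb : x = b
      · rw [hxb, habs_b]; exact h1 i hi1 (by omega)
      · rw [hx x h3 h4 hxi hxb]; exact h1 x h3 h4

/-- the key Lipschitz estimate -/
theorem lip (hw : IsAffineSigned n w) (ht : t ∈ T n) :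
    tvd n w + 2 * (badset n w).card ≤ tvd n (w * t) + 2 * (badset n (w * t)).card + tvd n t := by
  classical
  obtain ⟨i, b, l, s, h, hij, hl⟩ := exists_act ht
  have hN : (0 : ℤ) < 2 * n + 2 := by positivity
  have hi1 := h.i1
  have hib := h.ib
  have hbn := h.bn
  set j := s * b + l * (2 * n + 2) with hj
  -- main estimate on displacement
  have hQ : |j - i| - |w i - i| + |w i - j| ≤ tvd n t - tvd n w + tvd n (w * t) := by
    by_cases hbi : b = i
    · rw [(h.tvd_self).2 hbi, (h.tvd_mul hw).2 hbi, ← hj]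
      have : |-(w i) + l * (2 * n + 2) - i| = |w i - j| := by
        rw [← abs_neg, hj, h.hbi hbi, hbi]; congr 1; ring
      rw [this]; linarith
    · rw [(h.tvd_self).1 hbi, (h.tvd_mul hw).1 hbi, ← hj]
      have e1 : |w b - b| = |s * w b + l * (2 * n + 2) - j| := by
        rw [hj]
        rcases h.hs with rfl | rfl
        · congr 1; ring
        · rw [← abs_neg]; congr 1; ring
      have e2 : |s * w b + l * (2 * n + 2) - j| ≤ |s * w b + l * (2 * n + 2) - i| + |j - i| := by
        have := abs_sub (s * w b + l * (2 * n + 2) - i) (j - i)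
        rwa [show s * w b + l * (2 * (n : ℤ) + 2) - i - (j - i) = s * w b + l * (2 * n + 2) - j by ring] at this
      rw [e1]
      linarith
  set D := badset n w \ badset n (w * t) with hD
  have hcard : ((badset n w).card : ℤ) ≤ (badset n (w * t)).card + D.card := by
    have : (badset n w).card ≤ (badset n (w * t) ∪ D).card := by
      apply Finset.card_le_card
      intro x hx
      by_cases hx2 : x ∈ badset n (w * t)
      · exact Finset.mem_union_left _ hx2
      · exact Finset.mem_union_right _ (Finset.mem_sdiff.2 ⟨hx, hx2⟩)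
    have h2 := Finset.card_union_le (badset n (w * t)) D
    exact_mod_cast this.trans h2
  have hDprop : ∀ k ∈ D, i ≤ k ∧ |w i| ≤ k ∧ k < |j| := by
    intro k hk
    rw [hD, Finset.mem_sdiff, mem_badset, mem_badset] at hk
    obtain ⟨⟨hk1, hk2, hk3⟩, hk4⟩ := hk
    have hk5 : ¬ Bd (w * t) k := fun hb => hk4 ⟨hk1, hk2, hb⟩
    have hik : i ≤ k := by
      by_contra hlt
      exact hk5 ((h.bd_iff_lt (by omega)).2 hk3)
    refine ⟨hik, hk3.1 i hi1 hik, ?_⟩
    by_contra hjk
    have hjk : |j| ≤ k := by omega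
    have hl0 : l = 0 := by
      have h6 := abs_le.1 hjk
      rcases lt_trichotomy l 0 with h0 | h0 | h0
      · have h5 : l * (2 * (n : ℤ) + 2) ≤ -1 * (2 * n + 2) :=
          mul_le_mul_of_nonneg_right (by omega) hN.le
        rcases h.hs with rfl | rfl
        · linarith
        · linarith
      · exact h0
      · have h5 : 1 * (2 * (n : ℤ) + 2) ≤ l * (2 * n + 2) :=
          mul_le_mul_of_nonneg_right (by omega) hN.le
        rcases h.hs with rfl | rfl
        · linarith
        · linarith
    have hbi : b ≠ i := fun hb => hl hb hl0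
    have hbk : b ≤ k := by
      rw [hj, hl0] at hjk
      rcases h.hs with rfl | rfl
      · have := le_abs_self (1 * b + 0 * (2 * (n : ℤ) + 2)); linarith
      · have := neg_abs_le (-1 * b + 0 * (2 * (n : ℤ) + 2)); linarith
    subst hl0
    exact hk5 ((h.bd_iff_ge hw hbi hbk (by omega)).2 hk3)
  by_cases hDe : D = ∅
  · have h0 : (D.card : ℤ) = 0 := by rw [hDe]; simp
    have h3 : |w i - i| ≤ |w i - j| + |j - i| := by
      have := abs_add_le (w i - j) (j - i)
      rwa [show w i - j + (j - i) = w i - i by ring] at this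
    linarith
  · have hne : D.Nonempty := Finset.nonempty_iff_ne_empty.2 hDe
    set m := D.min' hne with hm
    obtain ⟨hm1, hm2, hm3⟩ := hDprop m (D.min'_mem hne)
    have hDsub : D ⊆ Finset.Icc m (|j| - 1) := by
      intro k hk
      rw [Finset.mem_Icc]
      exact ⟨D.min'_le k hk, by have := (hDprop k hk).2.2; omega⟩
    have hDcard : (D.card : ℤ) ≤ |j| - m := by
      have h1 := Finset.card_le_card hDsub
      rw [Int.card_Icc] at h1
      omega
    have hQ2 : 2 * (|j| - m) ≤ |j - i| - |w i - i| + |w i - j| := by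
      have h6 := abs_le.1 hm2
      rcases abs_cases j with hc | hc <;> rcases abs_cases (j - i) with hc2 | hc2 <;>
        rcases abs_cases (w i - i) with hc3 | hc3 <;> rcases abs_cases (w i - j) with hc4 | hc4 <;> omega
    linarith


theorem exists_min (P : ℤ → Prop) {lo hi : ℤ} (h : ∃ x, lo ≤ x ∧ x ≤ hi ∧ P x) :
    ∃ x, lo ≤ x ∧ x ≤ hi ∧ P x ∧ ∀ y, lo ≤ y → y < x → ¬ P y := by
  classical
  have hne : ((Finset.Icc lo hi).filter P).Nonempty := by
    obtain ⟨x, h1, h2, h3⟩ := h
    exact ⟨x, by simp [h1, h2, h3]⟩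
  refine ⟨((Finset.Icc lo hi).filter P).min' hne, ?_⟩
  have hm := Finset.min'_mem _ hne
  simp only [Finset.mem_filter, Finset.mem_Icc] at hm
  refine ⟨hm.1.1, hm.1.2, hm.2, fun y hy1 hy2 hy3 => ?_⟩
  have := Finset.min'_le ((Finset.Icc lo hi).filter P) y (by
    simp only [Finset.mem_filter, Finset.mem_Icc]; exact ⟨⟨hy1, by omega⟩, hy3⟩)
  omega

theorem exists_max (P : ℤ → Prop) {lo hi : ℤ} (h : ∃ x, lo ≤ x ∧ x ≤ hi ∧ P x) :
    ∃ x, lo ≤ x ∧ x ≤ hi ∧ P x ∧ ∀ y, x < y → y ≤ hi → ¬ P y := by
  classical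
  have hne : ((Finset.Icc lo hi).filter P).Nonempty := by
    obtain ⟨x, h1, h2, h3⟩ := h
    exact ⟨x, by simp [h1, h2, h3]⟩
  refine ⟨((Finset.Icc lo hi).filter P).max' hne, ?_⟩
  have hm := Finset.max'_mem _ hne
  simp only [Finset.mem_filter, Finset.mem_Icc] at hm
  refine ⟨hm.1.1, hm.1.2, hm.2, fun y hy1 hy2 hy3 => ?_⟩
  have := Finset.le_max' ((Finset.Icc lo hi).filter P) y (by
    simp only [Finset.mem_filter, Finset.mem_Icc]; exact ⟨⟨by omega, hy2⟩, hy3⟩)
  omega

/-- existence of reflections with prescribed window action -/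
theorem exists_refl {i b l s : ℤ} (i1 : 1 ≤ i) (ib : i ≤ b) (bn : b ≤ n) (hs : s = 1 ∨ s = -1)
    (hbi : b = i → s = -1 ∧ Odd l) : ∃ t ∈ T n, Act n t i b l s ∧ ∀ w ∈ SB n, w * t ∈ SB n := by
  have hN : (0 : ℤ) < 2 * n + 2 := by positivity
  have small : ∀ u v : ℤ, -(2 * n : ℤ) ≤ u → u ≤ 2 * n → u = v * (2 * n + 2) → v = 0 := by
    intro u v hu hu' huv
    rcases lt_trichotomy v 0 with hv | hv | hv
    · nlinarith
    · exact hv
    · nlinarith
  have castj : ((s * b + l * (2 * n + 2) : ℤ) : ZMod (2 * n + 2)) = ((s * b : ℤ) : ZMod (2 * n + 2)) :=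
    cast_add_mul _ _
  have key : ∀ u v : ℤ, -(n : ℤ) ≤ u → u ≤ n → -(n : ℤ) ≤ v → v ≤ n →
      (u : ZMod (2 * n + 2)) = v → u = v := by
    intro u v h1 h2 h3 h4 h5
    obtain ⟨k, hk⟩ := cast_eq.1 h5
    have := small (u - v) k (by omega) (by omega) (by linarith)
    rw [this] at hk; linarith
  have hsb : -(n : ℤ) ≤ s * b ∧ s * b ≤ n := by
    rcases hs with rfl | rfl <;> omega
  have adm : Adm n i (s * b + l * (2 * n + 2)) := by
    constructor
    · intro h
      have h2 : (i : ZMod (2 * n + 2)) = ((-i : ℤ) : ZMod (2 * n + 2)) := by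
        push_cast; linear_combination h
      have := key i (-i) (by omega) (by omega) (by omega) (by omega) h2
      omega
    · intro h
      have h2 : ((s * b : ℤ) : ZMod (2 * n + 2)) = ((-(s * b) : ℤ) : ZMod (2 * n + 2)) := by
        rw [castj] at h
        push_cast at h ⊢; linear_combination h
      have := key (s * b) (-(s * b)) (by omega) (by omega) (by omega) (by omega) h2
      rcases hs with rfl | rfl <;> omega
    · intro h
      rw [castj] at h
      have := key i (s * b) (by omega) (by omega) (by omega) (by omega) h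
      rcases hs with rfl | rfl
      · have hb : b = i := by omega
        have := (hbi hb).1
        omega
      · omega
  set t := swp n i (s * b + l * (2 * n + 2)) adm with ht
  have haff : IsAffineSigned n t := swp_aff adm
  have htr := swp_isTransposition adm
  have act : Act n t i b l s := by
    refine ⟨haff, i1, ib, bn, hs, fun h => (hbi h).1, ?_, ?_, ?_⟩
    · have := swp_1 adm 0
      simpa using this
    · rcases hs with rfl | rfl
      · have := swp_2 adm (-l)
        rw [show 1 * b + l * (2 * (n : ℤ) + 2) + -l * (2 * n + 2) = b by ring] at this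
        rw [ht, this]; ring
      · have := swp_4 adm l
        rw [show -(-1 * b + l * (2 * (n : ℤ) + 2)) + l * (2 * n + 2) = b by ring] at this
        rw [ht, this]; ring
    · intro x h1 h2 h3 h4
      apply swp_5 adm
      · intro h; exact h3 (key x i (by omega) (by omega) (by omega) (by omega) h)
      · intro h
        rw [castj] at h
        have := key x (s * b) (by omega) (by omega) (by omega) (by omega) h
        rcases hs with rfl | rfl <;> omega
      · intro h
        have := key x (-i) (by omega) (by omega) (by omega) (by omega) (by push_cast; exact h)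
        omega
      · intro h
        rw [castj] at h
        have := key x (-(s * b)) (by omega) (by omega) (by omega) (by omega) (by push_cast at h ⊢; exact h)
        rcases hs with rfl | rfl <;> omega
  have hpar1 : par n 1 = 0 := by
    unfold par
    apply Finset.sum_eq_zero
    intro x hx
    rw [Finset.mem_Icc] at hx
    rw [Equiv.Perm.one_apply]
    exact Int.ediv_eq_zero_of_lt (by omega) (by omega)
  have htSB : t ∈ SB n := by
    rw [mem_SB_iff haff]
    by_cases hb : b = i
    · have := (act.par_mul aff_one).2 hb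
      rw [one_mul, hpar1, sub_zero] at this
      exact this.2 (hbi hb).2
    · have := (act.par_mul aff_one).1 hb
      rw [one_mul, hpar1] at this
      exact this.2 (by simp)
  have hij : i ≠ s * b + l * (2 * n + 2) := fun h => adm.hij (by exact_mod_cast congrArg (Int.cast : ℤ → ZMod (2 * n + 2)) h)
  refine ⟨t, ⟨htSB, i, s * b + l * (2 * n + 2), hij, htr⟩, act, ?_⟩
  intro w hw
  have hwa := hw.1
  rw [mem_SB_iff (aff_mul hwa haff)]
  have hpw := (mem_SB_iff hwa).1 hw
  by_cases hb : b = i
  · have := ((act.par_mul hwa).2 hb).2 (hbi hb).2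
    have h2 := Even.add this hpw
    rwa [sub_add_cancel] at h2
  · exact ((act.par_mul hwa).1 hb).2 hpw

theorem pm_finite (k : ℕ) : (pm k).Finite := by
  apply (Set.finite_Icc (-(k : ℤ)) k).subset
  intro x hx
  have := abs_le.1 hx.2
  exact ⟨this.1, this.2⟩

theorem maps_pm (hw : IsAffineSigned n w) {k : ℕ} (h : ∀ x : ℤ, 1 ≤ x → x ≤ k → |w x| ≤ k) :
    w '' pm k = pm k := by
  have hsub : w '' pm k ⊆ pm k := by
    rintro _ ⟨x, hx, rfl⟩
    have h0 : w x ≠ 0 := by
      intro h0
      have : w x = w 0 := by rw [h0, aff_zero hw]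
      have := w.injective this
      rw [this] at hx
      have := hx.1
      simp at this
    have h1 : |w x| ≤ k := by
      have h2 := hx.1
      have h3 := hx.2
      rcases abs_cases x with hc | hc
      · exact h x (by omega) (by omega)
      · have := h (-x) (by omega) (by omega)
        rwa [hw.1, abs_neg] at this
    exact ⟨by have := abs_pos.2 h0; omega, h1⟩
  apply Set.eq_of_subset_of_ncard_le hsub _ (pm_finite k)
  rw [Set.ncard_image_of_injective _ w.injective]

theorem good_iff (hw : IsAffineSigned n w) {k : ℕ} :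
    Good w k ↔ ∀ x : ℤ, 1 ≤ x → x ≤ k → |w x| ≤ k := by
  constructor
  · intro h x h1 h2
    have : w x ∈ pm k := by
      rw [← h]
      exact ⟨x, ⟨by rw [abs_of_pos] <;> omega, by rw [abs_of_pos] <;> omega⟩, rfl⟩
    exact this.2
  · exact maps_pm hw

/-- a good cut: elements mapped inside come from inside -/
theorem inside (hw : IsAffineSigned n w) {k : ℤ} (h : ∀ x : ℤ, 1 ≤ x → x ≤ k → |w x| ≤ k) {y : ℤ}
    (hy0 : y ≠ 0) (hy : |w y| ≤ k) : |y| ≤ k := by
  have hk : 0 ≤ k := (abs_nonneg _).trans hy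
  obtain ⟨m, rfl⟩ := Int.eq_ofNat_of_zero_le hk
  have hm := maps_pm hw (k := m) h
  have h1 : w y ∈ pm m := by
    refine ⟨?_, hy⟩
    have h0 : w y ≠ 0 := by
      intro h0
      have : w y = w 0 := by rw [h0, aff_zero hw]
      exact hy0 (w.injective this)
    have := abs_pos.2 h0; omega
  rw [← hm] at h1
  obtain ⟨x, hx, hxy⟩ := h1
  have := w.injective hxy
  rw [← this]; exact hx.2


theorem nc_congr {v w : Equiv.Perm ℤ} {k : ℤ} (h : ∀ x : ℤ, 1 ≤ x → x ≤ k → v x = w x) :
    nc v k = nc w k := by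
  unfold nc
  apply Finset.sum_congr rfl
  intro x hx
  rw [Finset.mem_Icc] at hx
  rw [h x hx.1 hx.2]

theorem nc_succ {w : Equiv.Perm ℤ} {k : ℤ} (hk : 0 ≤ k) :
    nc w (k + 1) = nc w k + if w (k + 1) < 0 then 1 else 0 := by
  unfold nc
  have : Finset.Icc (1 : ℤ) (k + 1) = insert (k + 1) (Finset.Icc (1 : ℤ) k) := by
    ext x; simp only [Finset.mem_Icc, Finset.mem_insert]; omega
  rw [this, Finset.sum_insert (by simp), add_comm]

theorem nc_eq_of_pos {w : Equiv.Perm ℤ} {k m : ℤ} (hk : 0 ≤ k) (hkm : k ≤ m)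
    (h : ∀ x : ℤ, k < x → x ≤ m → 0 < w x) : nc w m = nc w k := by
  obtain ⟨d, rfl⟩ : ∃ d : ℕ, m = k + d := ⟨(m - k).toNat, by omega⟩
  clear hkm
  induction d with
  | zero => simp
  | succ d ih =>
    have h1 : k + ((d + 1 : ℕ) : ℤ) = (k + d) + 1 := by push_cast; ring
    rw [h1, nc_succ (by omega), ih (fun x h2 h3 => h x h2 (by push_cast; omega)), if_neg]
    · ring
    · have := h (k + d + 1) (by omega) (by push_cast; omega)
      omega

theorem nc_zero_of_pos {w : Equiv.Perm ℤ} {k : ℤ} (hk : 0 ≤ k)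
    (h : ∀ x : ℤ, 1 ≤ x → x ≤ k → 0 < w x) : nc w k = 0 := by
  rw [nc_eq_of_pos (le_refl 0) hk (fun x h1 h2 => h x (by omega) h2)]
  simp [nc]

/-- parity when all but one window value are small -/
theorem par_nc {v : Equiv.Perm ℤ} {i : ℤ} (i1 : 1 ≤ i) (hin : i ≤ n)
    (h : ∀ x : ℤ, 1 ≤ x → x ≤ n → x ≠ i → |v x| ≤ n) :
    par n v = v i / (2 * n + 2) + (if v i < 0 then 1 else 0) - nc v n := by
  have hi : i ∈ Finset.Icc (1 : ℤ) n := Finset.mem_Icc.2 ⟨i1, hin⟩
  have e : par n v + nc v n = v i / (2 * n + 2) + (if v i < 0 then 1 else 0) := by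
    unfold par nc
    rw [← Finset.sum_add_distrib, ← Finset.add_sum_erase _ _ hi]
    have : ∑ x ∈ (Finset.Icc (1 : ℤ) n).erase i, (v x / (2 * (n : ℤ) + 2) + if v x < 0 then 1 else 0) = 0 := by
      apply Finset.sum_eq_zero
      intro x hx
      rw [Finset.mem_erase, Finset.mem_Icc] at hx
      have h1 := abs_le.1 (h x hx.2.1 hx.2.2 hx.1)
      by_cases hneg : v x < 0
      · rw [if_pos hneg]
        have : v x = (v x + (2 * n + 2)) + (2 * n + 2) * (-1) := by ring
        rw [this, Int.add_mul_ediv_left _ _ (by positivity), Int.ediv_eq_zero_of_lt (by omega) (by omega)]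
        ring
      · rw [if_neg hneg, Int.ediv_eq_zero_of_lt (by omega) (by omega)]; ring
    rw [this, add_zero]
  linarith

theorem par_nc' {v : Equiv.Perm ℤ} (h : ∀ x : ℤ, 1 ≤ x → x ≤ n → |v x| ≤ n) :
    par n v = - nc v n := by
  have e : par n v + nc v n = 0 := by
    unfold par nc
    rw [← Finset.sum_add_distrib]
    apply Finset.sum_eq_zero
    intro x hx
    rw [Finset.mem_Icc] at hx
    have h1 := abs_le.1 (h x hx.1 hx.2)
    by_cases hneg : v x < 0
    · rw [if_pos hneg]
      have : v x = (v x + (2 * n + 2)) + (2 * n + 2) * (-1) := by ring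
      rw [this, Int.add_mul_ediv_left _ _ (by positivity), Int.ediv_eq_zero_of_lt (by omega) (by omega)]
      ring
    · rw [if_neg hneg, Int.ediv_eq_zero_of_lt (by omega) (by omega)]; ring
  linarith

theorem eq_one_of_window (hw : IsAffineSigned n w) (h : ∀ x : ℤ, 1 ≤ x → x ≤ n → w x = x) : w = 1 := by
  ext x
  rw [Equiv.Perm.one_apply]
  by_cases hx : ∃ k : ℤ, x = k * (n + 1)
  · obtain ⟨k, rfl⟩ := hx
    rcases Int.even_or_odd' k with ⟨m, rfl | rfl⟩
    · have := aff_shift hw 0 m
      rw [aff_zero hw, zero_add] at this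
      rw [show 2 * m * ((n : ℤ) + 1) = m * (2 * n + 2) by ring, this]
    · have := aff_shift hw (n + 1) m
      rw [aff_mid hw] at this
      rw [show (2 * m + 1) * ((n : ℤ) + 1) = (n + 1) + m * (2 * n + 2) by ring, this]
  · push Not at hx
    obtain ⟨σ, hσ, h1, h2⟩ := exists_rep x hx
    have h3 := h _ h1 h2
    obtain ⟨k, hk | hk⟩ := mem_sym.1 hσ
    · rw [hk, aff_shift hw] at h3; linarith
    · rw [hk, aff_shift hw, hw.1] at h3; linarith

/-- the conclusion of one step -/
def Step (n : ℕ) (w : Equiv.Perm ℤ) : Prop :=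
  ∃ t ∈ T n, w * t ∈ SB n ∧
    tvd n (w * t) + 2 * (badset n (w * t)).card + tvd n t ≤ tvd n w + 2 * (badset n w).card ∧ 0 < tvd n t

theorem step_of_subset (ht : t ∈ T n) (hwt : w * t ∈ SB n)
    (htvd : tvd n (w * t) + tvd n t ≤ tvd n w) (hpos : 0 < tvd n t)
    (hb : ∀ k : ℤ, 1 ≤ k → k ≤ n - 1 → Bd (w * t) k → Bd w k) : Step n w := by
  refine ⟨t, ht, hwt, ?_, hpos⟩
  have : (badset n (w * t)).card ≤ (badset n w).card := by
    apply Finset.card_le_card
    intro k hk
    rw [mem_badset] at hk ⊢
    exact ⟨hk.1, hk.2.1, hb k hk.1 hk.2.1 hk.2.2⟩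
  have h2 : ((badset n (w * t)).card : ℤ) ≤ (badset n w).card := by exact_mod_cast this
  linarith

/-- fixed values -/
theorem fixed_val {y x : ℤ} (h : w y = y) (hx : w x = y) : x = y := w.injective (by rw [h, hx])

theorem fixed_val_neg (hw : IsAffineSigned n w) {y x : ℤ} (h : w y = y) (hx : w x = -y) : x = -y :=
  w.injective (by rw [hw.1, h, hx])

theorem fixed_abs (hw : IsAffineSigned n w) {y x : ℤ} (h : w y = y) (hx : |w x| = y) : |x| = |y| := by
  rcases abs_cases (w x) with hc | hc
  · rw [fixed_val h (x := x) (by omega)]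
  · rw [fixed_val_neg hw h (x := x) (by omega), abs_neg]

theorem fix_aux {lo hi : ℤ} (h : ∀ x, lo < x → x ≤ hi → lo < w x ∧ w x ≤ x) :
    ∀ x, lo < x → x ≤ hi → w x = x := by
  have key : ∀ d : ℕ, ∀ x, lo < x → x ≤ hi → x ≤ lo + d → w x = x := by
    intro d
    induction d with
    | zero => intro x h1 _ h3; push_cast at h3; omega
    | succ d ih =>
      intro x h1 h2 h3
      obtain ⟨h4, h5⟩ := h x h1 h2
      by_contra hne
      have h6 : w x < x := lt_of_le_of_ne h5 hne
      have h7 := ih (w x) h4 (by omega) (by push_cast at h3; omega)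
      exact hne (w.injective h7)
  intro x h1 h2
  exact key (x - lo).toNat x h1 h2 (by omega)

/-- Lemma Z : a bad cut followed by an element moving left -/
theorem stepZ (hw : w ∈ SB n) {k b : ℤ} (hk1 : 1 ≤ k) (hkb : k < b) (hbn : b ≤ n) (hbad : Bd w k)
    (hfix : ∀ x, k < x → x < b → w x = x) (hb : w b < b) : Step n w := by
  have hwa := hw.1
  -- the last nonfixed element
  have hex : ∃ x, 1 ≤ x ∧ x ≤ k ∧ w x ≠ x := by
    by_contra hcon
    push Not at hcon
    have : nc w k = 0 := nc_zero_of_pos (by omega) (fun x h1 h2 => by rw [hcon x h1 h2]; omega)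
    have h2 := hbad.2
    rw [this] at h2
    simp at h2
  obtain ⟨a, ha1, hak, hane, hamax⟩ := exists_max (fun x => w x ≠ x) hex
  have hfix2 : ∀ x, a < x → x < b → w x = x := by
    intro x h1 h2
    by_cases h3 : x ≤ k
    · by_contra h4; exact hamax x h1 h3 h4
    · exact hfix x (by omega) h2
  -- all cuts in [a,b) are bad
  have hBd : ∀ k', a ≤ k' → k' < b → Bd w k' := by
    intro k' h1 h2
    constructor
    · intro x hx1 hx2
      by_contra hgt
      push Not at hgt
      by_cases hlt : |w x| < b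
      · have h3 := fixed_abs hwa (y := |w x|) (x := x) (hfix2 _ (by omega) hlt) rfl
        rw [abs_abs, abs_of_pos (by omega : 0 < x)] at h3
        omega
      · by_cases hxk : x ≤ k
        · have := hbad.1 x hx1 hxk
          omega
        · have h3 := hfix x (by omega) (by omega)
          rw [h3, abs_of_pos (by omega : 0 < x)] at hgt
          omega
    · rcases le_total k k' with h3 | h3
      · rw [nc_eq_of_pos (by omega) h3 (fun x h4 h5 => by rw [hfix2 x (by omega) (by omega)]; omega)]
        exact hbad.2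
      · have := nc_eq_of_pos (w := w) (by omega) h3 (fun x h4 h5 => by rw [hfix2 x (by omega) (by omega)]; omega)
        rw [← this]
        exact hbad.2
  have hwa1 : w a ≤ a := (abs_le.1 ((hBd a (le_refl a) (by omega)).1 a ha1 (le_refl a))).2
  have hwb1 : w b ≤ a := by
    by_contra h3
    push Not at h3
    have := fixed_val (hfix2 (w b) h3 hb) (x := b) rfl
    omega
  obtain ⟨t, ht, act, htSB⟩ := exists_refl (n := n) (i := a) (b := b) (l := 0) (s := 1) ha1 (by omega) hbn
    (Or.inl rfl) (fun h => by omega)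
  refine ⟨t, ht, htSB w hw, ?_, ?_⟩
  · have hne : b ≠ a := by omega
    have e1 := (act.tvd_mul hwa).1 hne
    have e2 := act.tvd_self.1 hne
    rw [zero_mul, add_zero, one_mul] at e1 e2
    rw [add_zero, one_mul] at e1
    rw [abs_of_nonpos (by omega : w a - a ≤ 0), abs_of_nonpos (by omega : w b - b ≤ 0),
      abs_of_nonpos (by omega : w b - a ≤ 0), abs_of_nonpos (by omega : w a - b ≤ 0)] at e1
    rw [abs_of_nonneg (by omega : 0 ≤ b - a)] at e2
    have hsub : badset n (w * t) ⊆ badset n w \ Finset.Ico a b := by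
      intro k' hk'
      rw [mem_badset] at hk'
      rw [Finset.mem_sdiff, mem_badset, Finset.mem_Ico]
      obtain ⟨h1, h2, h3⟩ := hk'
      by_cases h4 : k' < a
      · exact ⟨⟨h1, h2, (act.bd_iff_lt h4).1 h3⟩, by omega⟩
      · by_cases h5 : b ≤ k'
        · exact ⟨⟨h1, h2, (act.bd_iff_ge hwa hne h5 (by omega)).1 h3⟩, by omega⟩
        · exfalso
          have h6 := h3.1 a ha1 (by omega)
          have h7 := act.wi hwa
          rw [one_mul, zero_mul, add_zero] at h7
          rw [h7] at h6
          have h8 := inside hwa (hBd k' (by omega) (by omega)).1 (by omega) h6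
          rw [abs_of_pos (by omega : 0 < b)] at h8
          omega
    have hsub2 : Finset.Ico a b ⊆ badset n w := by
      intro k' hk'
      rw [Finset.mem_Ico] at hk'
      rw [mem_badset]
      exact ⟨by omega, by omega, hBd k' hk'.1 hk'.2⟩
    have hc1 := Finset.card_le_card hsub
    rw [Finset.card_sdiff_of_subset hsub2, Int.card_Ico] at hc1
    have hc2 := Finset.card_le_card hsub2
    rw [Int.card_Ico] at hc2
    have hc3 : ((b - a).toNat : ℤ) = b - a := Int.toNat_of_nonneg (by omega)
    have hc4 : ((badset n (w * t)).card : ℤ) ≤ (badset n w).card - (b - a) := by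
      rw [← hc3]; omega
    linarith
  · have hne : b ≠ a := by omega
    rw [act.tvd_self.1 hne, zero_mul, add_zero, one_mul, abs_of_nonneg (by omega : 0 ≤ b - a)]
    omega


/-- Case II: no element of the window moves right -/
theorem step_left (hw : w ∈ SB n) (hne : w ≠ 1) (hL : ∀ x : ℤ, 1 ≤ x → x ≤ n → w x ≤ x) : Step n w := by
  have hwa := hw.1
  have hparw := (mem_SB_iff hwa).1 hw
  have hN : (0 : ℤ) < 2 * n + 2 := by positivity
  by_cases hbs : ∃ k : ℤ, 1 ≤ k ∧ k ≤ n - 1 ∧ Bd w k
  · obtain ⟨k, hk1, hk2, hbad⟩ := hbs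
    have hex : ∃ x : ℤ, k + 1 ≤ x ∧ x ≤ n ∧ w x ≠ x := by
      by_contra hcon
      push Not at hcon
      have h1 : par n w = - nc w n := by
        apply par_nc'
        intro x hx1 hx2
        by_cases hxk : x ≤ k
        · exact (hbad.1 x hx1 hxk).trans (by omega)
        · rw [hcon x (by omega) hx2, abs_of_pos (by omega)]; exact hx2
      have h2 : nc w n = nc w k :=
        nc_eq_of_pos (by omega) (by omega) (fun x h3 h4 => by rw [hcon x (by omega) h4]; omega)
      rw [h1, h2, even_neg] at hparw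
      exact (Int.not_even_iff_odd.2 hbad.2) hparw
    obtain ⟨b, hb1, hb2, hb3, hb4⟩ := exists_min (fun x => w x ≠ x) hex
    refine stepZ hw hk1 (by omega) hb2 hbad (fun x h1 h2 => ?_) (lt_of_le_of_ne (hL b (by omega) hb2) hb3)
    by_contra h3
    exact hb4 x (by omega) h2 h3
  · push Not at hbs
    have hex : ∃ x : ℤ, 1 ≤ x ∧ x ≤ n ∧ w x ≠ x := by
      by_contra hcon
      push Not at hcon
      exact hne (eq_one_of_window hwa hcon)
    obtain ⟨i, hi1, hi2, hi3, hi4⟩ := exists_min (fun x => w x ≠ x) hex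
    have hfix : ∀ x, 1 ≤ x → x < i → w x = x := by
      intro x h1 h2
      by_contra h3
      exact hi4 x h1 h2 h3
    have hwi : w i < i := lt_of_le_of_ne (hL i hi1 hi2) hi3
    -- values in (-i,i) are fixed
    have hval : ∀ x : ℤ, x ≠ 0 → w x < i → (|x| < i ∨ w x ≤ -i) := by
      intro x hx0 hx
      by_contra hcon
      push Not at hcon
      obtain ⟨h1, h2⟩ := hcon
      have h0 : w x ≠ 0 := fun h0 => hx0 (w.injective (by rw [h0, aff_zero hwa]))
      rcases abs_cases (w x) with hc | hc
      · have h3 := fixed_abs hwa (y := |w x|) (x := x) (hfix _ (by omega) (by omega)) rfl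
        rw [abs_abs] at h3; omega
      · have h3 := fixed_abs hwa (y := |w x|) (x := x) (hfix _ (by omega) (by omega)) rfl
        rw [abs_abs] at h3; omega
    have hwi2 : w i ≤ -i := by
      rcases hval i (by omega) hwi with h | h
      · rw [abs_of_pos (by omega)] at h; omega
      · exact h
    by_cases hJ : ∃ x : ℤ, i + 1 ≤ x ∧ x ≤ n ∧ w x < i
    · obtain ⟨j, hj1, hj2, hj3, hj4⟩ := exists_min (fun x => w x < i) hJ
      have hmid : ∀ x, i < x → x < j → i ≤ w x := by
        intro x h1 h2
        by_contra h3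
        exact hj4 x (by omega) h2 (by omega)
      have hwj : w j ≤ -i := by
        rcases hval j (by omega) hj3 with h | h
        · rw [abs_of_pos (by omega)] at h; omega
        · exact h
      have hwij : w i ≤ -j := by
        by_contra hcon
        push Not at hcon
        apply hbs (j - 1) (by omega) (by omega)
        constructor
        · intro x h1 h2
          rcases lt_trichotomy x i with h3 | h3 | h3
          · rw [hfix x h1 h3, abs_of_pos (by omega)]; exact h2
          · rw [h3, abs_of_neg (by omega)]; omega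
          · have h4 := hmid x h3 (by omega)
            have h5 := hL x (by omega) (by omega)
            rw [abs_of_pos (by omega)]; omega
        · have h1 : nc w (j - 1) = nc w i :=
            nc_eq_of_pos (by omega) (by omega) (fun x h3 h4 => by have := hmid x h3 (by omega); omega)
          have h2 : nc w i = 1 := by
            have := nc_succ (w := w) (k := i - 1) (by omega)
            rw [sub_add_cancel, if_pos (by omega)] at this
            rw [this, nc_zero_of_pos (by omega) (fun x h3 h4 => by rw [hfix x h3 (by omega)]; omega)]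
            ring
          rw [h1, h2]; exact odd_one
      obtain ⟨t, ht, act, htSB⟩ := exists_refl (n := n) (i := i) (b := j) (l := 0) (s := -1) hi1 (by omega) hj2
        (Or.inr rfl) (fun h => by omega)
      have hne' : j ≠ i := by omega
      have e1 := (act.tvd_mul hwa).1 hne'
      have e2 := act.tvd_self.1 hne'
      have wi := act.wi hwa
      rw [zero_mul, add_zero, neg_one_mul] at e1 e2 wi
      rw [add_zero, neg_one_mul] at e1
      rw [abs_of_nonpos (by omega : w i - i ≤ 0), abs_of_nonpos (by omega : w j - j ≤ 0),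
        abs_of_nonneg (by omega : 0 ≤ -w j - i), abs_of_nonpos (by omega : w i - -j ≤ 0)] at e1
      rw [abs_of_nonpos (by omega : -j - i ≤ 0)] at e2
      apply step_of_subset ht (htSB w hw) (by linarith) (by linarith)
      intro k hk1 hk2 hk3
      by_cases h1 : k < i
      · exact (act.bd_iff_lt h1).1 hk3
      · by_cases h2 : j ≤ k
        · exact (act.bd_iff_ge hwa hne' h2 (by omega)).1 hk3
        · exfalso
          have h3 : nc (w * t) k = 0 := by
            apply nc_zero_of_pos (by omega)
            intro x h4 h5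
            rcases lt_trichotomy x i with h6 | h6 | h6
            · rw [act.wx h4 (by omega) (by omega) (by omega), hfix x h4 h6]; omega
            · rw [h6, wi]; omega
            · rw [act.wx h4 (by omega) (by omega) (by omega)]
              have := hmid x h6 (by omega); omega
          have h4 := hk3.2
          rw [h3] at h4
          simp at h4
    · push Not at hJ
      have hJ' : ∀ x : ℤ, i < x → x ≤ n → i ≤ w x := fun x h1 h2 => hJ x (by omega) h2
      have hp : par n w = w i / (2 * n + 2) + (if w i < 0 then 1 else 0) - nc w n := by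
        apply par_nc hi1 hi2
        intro x h1 h2 h3
        rcases lt_trichotomy x i with h4 | h4 | h4
        · rw [hfix x h1 h4, abs_of_pos (by omega)]; exact h2
        · exact absurd h4 h3
        · have h5 := hJ' x h4 h2
          have h6 := hL x h1 h2
          rw [abs_of_pos (by omega)]; omega
      have hnc : nc w n = 1 := by
        have h1 : nc w n = nc w i :=
          nc_eq_of_pos (by omega) (by omega) (fun x h3 h4 => by have := hJ' x h3 (by omega); omega)
        have := nc_succ (w := w) (k := i - 1) (by omega)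
        rw [sub_add_cancel, if_pos (by omega)] at this
        rw [h1, this, nc_zero_of_pos (by omega) (fun x h3 h4 => by rw [hfix x h3 (by omega)]; omega)]
        ring
      rw [hp, hnc, if_pos (by omega : w i < 0)] at hparw
      have hdiv : w i / (2 * n + 2) < 0 := Int.ediv_lt_of_lt_mul hN (by omega)
      have hdiv2 : w i / (2 * n + 2) ≤ -2 := by
        rcases hparw with ⟨r, hr⟩
        omega
      have hwi3 : w i < -(2 * n + 2) := by
        have h1 := Int.emod_add_mul_ediv (w i) (2 * n + 2)
        have h2 := Int.emod_lt_of_pos (w i) hN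
        have h3 : (2 * (n : ℤ) + 2) * (w i / (2 * n + 2)) ≤ (2 * n + 2) * (-2) :=
          mul_le_mul_of_nonneg_left hdiv2 hN.le
        linarith
      have hv : i ≤ -(w i) - (2 * n + 2) := by
        by_contra hcon
        push Not at hcon
        have h1 := hfix (-(w i) - (2 * n + 2)) (by omega) hcon
        have h2 : w (-i + (-1) * (2 * n + 2)) = -(w i) + (-1) * (2 * n + 2) := by
          rw [aff_shift hwa, hwa.1]
        have h3 : w (-i + (-1) * (2 * n + 2)) = w (-(w i) - (2 * n + 2)) := by rw [h1, h2]; ring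
        have h4 := w.injective h3
        omega
      obtain ⟨t, ht, act, htSB⟩ := exists_refl (n := n) (i := i) (b := i) (l := -1) (s := -1) hi1 (le_refl i) hi2
        (Or.inr rfl) (fun _ => ⟨rfl, by decide⟩)
      have e1 := (act.tvd_mul hwa).2 rfl
      have e2 := act.tvd_self.2 rfl
      have wi := act.wi hwa
      rw [abs_of_nonpos (by omega : w i - i ≤ 0), abs_of_nonneg (by omega : 0 ≤ -w i + -1 * (2 * (n : ℤ) + 2) - i)] at e1
      rw [abs_of_nonpos (by omega : -1 * i + -1 * (2 * (n : ℤ) + 2) - i ≤ 0)] at e2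
      apply step_of_subset ht (htSB w hw) (by linarith) (by linarith)
      intro k hk1 hk2 hk3
      by_cases h1 : k < i
      · exact (act.bd_iff_lt h1).1 hk3
      · exfalso
        have h3 : nc (w * t) k = 0 := by
          apply nc_zero_of_pos (by omega)
          intro x h4 h5
          rcases lt_trichotomy x i with h6 | h6 | h6
          · rw [act.wx h4 (by omega) (by omega) (by omega), hfix x h4 h6]; omega
          · rw [h6, wi]; omega
          · rw [act.wx h4 (by omega) (by omega) (by omega)]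
            have := hJ' x h6 (by omega); omega
        have h4 := hk3.2
        rw [h3] at h4
        simp at h4


/-- the reflection `⟨(i, N-i)⟩` as a step -/
theorem stepA (hw : w ∈ SB n) {i : ℤ} (hi1 : 1 ≤ i) (hi2 : i ≤ n) (hwi : 2 * n + 2 - i ≤ w i)
    (hb : ∀ t, Act n t i i 1 (-1) → w * t ∈ SB n → ∀ k : ℤ, i ≤ k → k ≤ n - 1 → ¬ Bd (w * t) k) :
    Step n w := by
  have hwa := hw.1
  obtain ⟨t, ht, act, htSB⟩ := exists_refl (n := n) (i := i) (b := i) (l := 1) (s := -1) hi1 (le_refl i) hi2
    (Or.inr rfl) (fun _ => ⟨rfl, by decide⟩)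
  have e1 := (act.tvd_mul hwa).2 rfl
  have e2 := act.tvd_self.2 rfl
  rw [abs_of_nonneg (by omega : 0 ≤ w i - i), abs_of_nonpos (by omega : -w i + 1 * (2 * (n : ℤ) + 2) - i ≤ 0)] at e1
  rw [abs_of_nonneg (by omega : 0 ≤ -1 * i + 1 * (2 * (n : ℤ) + 2) - i)] at e2
  apply step_of_subset ht (htSB w hw) (by linarith) (by linarith)
  intro k hk1 hk2 hk3
  by_cases h1 : k < i
  · exact (act.bd_iff_lt h1).1 hk3
  · exact absurd hk3 (hb t act (htSB w hw) k (by omega) hk2)

theorem step_right (hw : w ∈ SB n) (hR : ∃ x : ℤ, 1 ≤ x ∧ x ≤ n ∧ x < w x) : Step n w := by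
  have hwa := hw.1
  have hparw := (mem_SB_iff hwa).1 hw
  have hN : (0 : ℤ) < 2 * n + 2 := by positivity
  obtain ⟨i, hi1, hi2, hwi, hi4⟩ := exists_max (fun x => x < w x) hR
  have hL : ∀ x : ℤ, i < x → x ≤ n → w x ≤ x := by
    intro x h1 h2
    by_contra h3
    exact hi4 x h1 h2 (by omega)
  by_cases hJ : ∃ x : ℤ, i + 1 ≤ x ∧ x ≤ n ∧ w x ≤ i
  · obtain ⟨j, hj1, hj2, hj3, hj4⟩ := exists_min (fun x => w x ≤ i) hJ
    have hmid : ∀ x, i < x → x ≤ j - 1 → w x = x := by
      apply fix_aux
      intro x h1 h2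
      refine ⟨?_, hL x h1 (by omega)⟩
      by_contra h3
      exact hj4 x (by omega) (by omega) (by omega)
    have hwij : j ≤ w i := by
      by_contra hcon
      have := fixed_val (hmid (w i) hwi (by omega)) (x := i) rfl
      omega
    obtain ⟨t, ht, act, htSB⟩ := exists_refl (n := n) (i := i) (b := j) (l := 0) (s := 1) hi1 (by omega) hj2
      (Or.inl rfl) (fun h => by omega)
    have hne' : j ≠ i := by omega
    have e1 := (act.tvd_mul hwa).1 hne'
    have e2 := act.tvd_self.1 hne'
    have vi := act.wi hwa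
    have vj := act.wb hwa
    rw [zero_mul, add_zero, one_mul] at e1 e2 vi
    rw [add_zero, one_mul] at e1
    rw [zero_mul, sub_zero, one_mul] at vj
    rw [abs_of_nonneg (by omega : 0 ≤ w i - i), abs_of_nonpos (by omega : w j - j ≤ 0),
      abs_of_nonpos (by omega : w j - i ≤ 0), abs_of_nonneg (by omega : 0 ≤ w i - j)] at e1
    rw [abs_of_nonneg (by omega : 0 ≤ j - i)] at e2
    have hva : IsAffineSigned n (w * t) := (htSB w hw).1
    have vx : ∀ x : ℤ, 1 ≤ x → x ≤ n → x ≠ i → x ≠ j → (w * t) x = w x := fun x h1 h2 h3 h4 =>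
      act.wx h1 h2 h3 h4
    by_cases hstar : Bd (w * t) i
    · -- all values outside are large
      have hout : ∀ x : ℤ, i < x → x ≤ n → x ≠ j → i < |w x| := by
        intro x h1 h2 h3
        by_contra hcon
        rw [← vx x (by omega) h2 (by omega) h3] at hcon
        have := inside hva hstar.1 (y := x) (by omega) (by omega)
        rw [abs_of_pos (by omega)] at this
        omega
      have hin : ∀ x : ℤ, 1 ≤ x → x < i → |w x| ≤ i := by
        intro x h1 h2
        rw [← vx x h1 (by omega) (by omega) (by omega)]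
        exact hstar.1 x h1 h2.le
      have hinj : |w j| ≤ i := by
        rw [← vi]; exact hstar.1 i hi1 (le_refl i)
      -- parity computation
      have hodd : ∀ k : ℤ, j ≤ k → k ≤ n → (∀ x : ℤ, i < x → x ≤ k → x ≠ j → i < w x) → Odd (nc w k) := by
        intro k h1 h2 h3
        have e3 : nc (w * t) k = nc w k := by
          have := (sum_diff (m := k) (fun x => (if (w * t) x < 0 then (1 : ℤ) else 0))
            (fun x => (if w x < 0 then (1 : ℤ) else 0)) hi1 (by omega) (by omega) h1
            (fun x h1 h2 h3 h4 => by simp only [vx x h1 (by omega) h3 h4])).1 hne'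
          unfold nc
          rw [this]
          simp only [vi, vj]
          ring
        have e4 : nc (w * t) k = nc (w * t) i := by
          apply nc_eq_of_pos (by omega) (by omega)
          intro x h4 h5
          by_cases h6 : x = j
          · rw [h6, vj]; omega
          · rw [vx x (by omega) (by omega) (by omega) h6]
            have := h3 x h4 h5 h6; omega
        rw [← e3, e4]; exact hstar.2
      by_cases hJ2 : ∃ x : ℤ, j + 1 ≤ x ∧ x ≤ n ∧ w x ≤ i
      · obtain ⟨j', hj1', hj2', hj3', hj4'⟩ := exists_min (fun x => w x ≤ i) hJ2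
        have hpos : ∀ x : ℤ, i < x → x < j' → x ≠ j → i < w x := by
          intro x h1 h2 h3
          rcases lt_or_gt_of_ne h3 with h4 | h4
          · rw [hmid x h1 (by omega)]; exact h1
          · by_contra h5
            exact hj4' x (by omega) h2 (by omega)
        have hwj' : w j' < -i := by
          have := hout j' (by omega) hj2' (by omega)
          rcases abs_cases (w j') with hc | hc <;> omega
        by_cases hwij' : j' ≤ w i
        · -- swap i and j'
          obtain ⟨t', ht', act', htSB'⟩ := exists_refl (n := n) (i := i) (b := j') (l := 0) (s := 1) hi1 (by omega) hj2'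
            (Or.inl rfl) (fun h => by omega)
          have hne2 : j' ≠ i := by omega
          have e1' := (act'.tvd_mul hwa).1 hne2
          have e2' := act'.tvd_self.1 hne2
          have ui := act'.wi hwa
          rw [zero_mul, add_zero, one_mul] at e1' e2' ui
          rw [add_zero, one_mul] at e1'
          rw [abs_of_nonneg (by omega : 0 ≤ w i - i), abs_of_nonpos (by omega : w j' - j' ≤ 0),
            abs_of_nonpos (by omega : w j' - i ≤ 0), abs_of_nonneg (by omega : 0 ≤ w i - j')] at e1'
          rw [abs_of_nonneg (by omega : 0 ≤ j' - i)] at e2'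
          apply step_of_subset ht' (htSB' w hw) (by linarith) (by linarith)
          intro k hk1 hk2 hk3
          by_cases h1 : k < i
          · exact (act'.bd_iff_lt h1).1 hk3
          · by_cases h2 : j' ≤ k
            · exact (act'.bd_iff_ge hwa hne2 h2 (by omega)).1 hk3
            · exfalso
              have ux : ∀ x : ℤ, 1 ≤ x → x ≤ k → x ≠ i → (w * t') x = w x := fun x h1 h2 h3 =>
                act'.wx h1 (by omega) h3 (by omega)
              by_cases h3 : k < j
              · have h4 := hk3.1 i hi1 (by omega)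
                rw [ui] at h4
                have h5 := hout j' (by omega) hj2' (by omega)
                have h6 := fixed_abs hwa (y := |w j'|) (x := j') (hmid _ h5 (by omega)) rfl
                rw [abs_abs, abs_of_pos (by omega : 0 < j')] at h6
                omega
              · have h4 := hodd k (by omega) (by omega) (fun x h5 h6 h7 => hpos x h5 (by omega) h7)
                have h5 : nc (w * t') k = nc w k + 1 := by
                  have := (sum_diff (m := k) (fun x => (if (w * t') x < 0 then (1 : ℤ) else 0))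
                    (fun x => (if w x < 0 then (1 : ℤ) else 0)) hi1 (by omega) hi1 (by omega)
                    (fun x h1 h2 h3 h4 => by simp only [ux x h1 h2 h3])).2 rfl
                  unfold nc
                  rw [this]
                  simp only [ui]
                  rw [if_pos (by omega), if_neg (by omega)]; ring
                have h6 := hk3.2
                rw [h5] at h6
                exact (Int.not_even_iff_odd.2 h6) (Odd.add_odd h4 odd_one)
        · -- the cut j' - 1 is bad
          apply stepZ hw (k := j' - 1) (b := j') (by omega) (by omega) hj2' _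
            (fun x h1 h2 => by omega) (by omega)
          refine ⟨?_, hodd (j' - 1) (by omega) (by omega) (fun x h5 h6 h7 => hpos x h5 (by omega) h7)⟩
          intro x h1 h2
          rcases lt_trichotomy x i with h3 | h3 | h3
          · exact (hin x h1 h3).trans (by omega)
          · rw [h3, abs_of_pos (by omega)]; omega
          · by_cases h4 : x = j
            · rw [h4]; omega
            · have h5 := hpos x h3 (by omega) h4
              have h6 := hL x h3 (by omega)
              rw [abs_of_pos (by omega)]; omega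
      · push Not at hJ2
        have hpos : ∀ x : ℤ, i < x → x ≤ n → x ≠ j → i < w x := by
          intro x h1 h2 h3
          rcases lt_or_gt_of_ne h3 with h4 | h4
          · rw [hmid x h1 (by omega)]; exact h1
          · exact hJ2 x (by omega) h2
        have hp : par n w = w i / (2 * n + 2) + (if w i < 0 then 1 else 0) - nc w n := by
          apply par_nc hi1 hi2
          intro x h1 h2 h3
          rcases lt_or_gt_of_ne h3 with h4 | h4
          · exact (hin x h1 h4).trans hi2
          · by_cases h5 : x = j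
            · rw [h5]; omega
            · have h6 := hpos x h4 h2 h5
              have h7 := hL x h4 h2
              rw [abs_of_pos (by omega)]; omega
        have hnc := hodd n hj2 (le_refl _) hpos
        rw [hp, if_neg (by omega : ¬ w i < 0), add_zero, Int.even_sub'] at hparw
        have hdo : Odd (w i / (2 * n + 2)) := hparw.2 hnc
        have hd0 : 0 ≤ w i / (2 * n + 2) := Int.ediv_nonneg (by omega) hN.le
        have hd1 : 1 ≤ w i / (2 * n + 2) := by
          rcases hdo with ⟨r, hr⟩; omega
        have hwi3 : 2 * n + 2 ≤ w i := by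
          have h1 := Int.emod_add_mul_ediv (w i) (2 * n + 2)
          have h2 := Int.emod_nonneg (w i) hN.ne'
          have h3 : (2 * (n : ℤ) + 2) * 1 ≤ (2 * n + 2) * (w i / (2 * n + 2)) :=
            mul_le_mul_of_nonneg_left hd1 hN.le
          linarith
        apply stepA hw hi1 hi2 (by omega)
        intro t' act' hSB' k hk1 hk2 hk3
        have ui := act'.wi hwa
        have ux : ∀ x : ℤ, 1 ≤ x → x ≤ k → x ≠ i → (w * t') x = w x := fun x h1 h2 h3 =>
          act'.wx h1 (by omega) h3 h3
        by_cases h3 : k < j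
        · have h4 : |(w * t') j| ≤ k := by
            rw [act'.wx (by omega) hj2 hne' hne']; omega
          have h5 := inside hSB'.1 hk3.1 (y := j) (by omega) h4
          rw [abs_of_pos (by omega)] at h5
          omega
        · have h4 := hodd k (by omega) (by omega) (fun x h5 h6 h7 => hpos x h5 (by omega) h7)
          have hu0 := aff_ne_zero hSB'.1 hi1 hi2
          have h5 : nc (w * t') k = nc w k + 1 := by
            have := (sum_diff (m := k) (fun x => (if (w * t') x < 0 then (1 : ℤ) else 0))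
              (fun x => (if w x < 0 then (1 : ℤ) else 0)) hi1 (by omega) hi1 (by omega)
              (fun x h1 h2 h3 h4 => by simp only [ux x h1 h2 h3])).2 rfl
            unfold nc
            rw [this]
            rw [if_pos (by omega), if_neg (by omega)]; ring
          have h6 := hk3.2
          rw [h5] at h6
          exact (Int.not_even_iff_odd.2 h6) (Odd.add_odd h4 odd_one)
    · -- swapping i and j creates no bad cut
      apply step_of_subset ht (htSB w hw) (by linarith) (by linarith)
      intro k hk1 hk2 hk3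
      by_cases h1 : k < i
      · exact (act.bd_iff_lt h1).1 hk3
      · by_cases h2 : j ≤ k
        · exact (act.bd_iff_ge hwa hne' h2 (by omega)).1 hk3
        · exfalso
          apply hstar
          constructor
          · intro x h3 h4
            by_contra h5
            push Not at h5
            have h6 := hk3.1 x h3 (by omega)
            have h7 : (w * t) |(w * t) x| = |(w * t) x| := by
              rw [vx _ (by omega) (by omega) (by omega) (by omega)]
              exact hmid _ h5 (by omega)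
            have h8 := fixed_abs hva h7 (x := x) rfl
            rw [abs_abs, abs_of_pos (by omega : 0 < x)] at h8
            omega
          · have h3 : nc (w * t) k = nc (w * t) i := by
              apply nc_eq_of_pos (by omega) (by omega)
              intro x h4 h5
              rw [vx x (by omega) (by omega) (by omega) (by omega), hmid x h4 (by omega)]
              omega
            rw [← h3]; exact hk3.2
  · push Not at hJ
    have hfix : ∀ x, i < x → x ≤ n → w x = x := by
      apply fix_aux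
      intro x h1 h2
      exact ⟨hJ x (by omega) h2, hL x h1 h2⟩
    have hwi2 : 2 * n + 2 - i ≤ w i := by
      by_contra hcon
      push Not at hcon
      by_cases h1 : w i ≤ n
      · have := fixed_val (hfix (w i) hwi h1) (x := i) rfl
        omega
      · by_cases h2 : w i = n + 1
        · have := w.injective (h2.trans (aff_mid hwa).symm)
          omega
        · have h3 := hfix (2 * n + 2 - w i) (by omega) (by omega)
          have h4 : w (-(2 * n + 2 - w i) + 1 * (2 * n + 2)) = w i := by
            rw [aff_shift hwa, hwa.1, h3]; ring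
          have h5 := w.injective h4
          omega
    apply stepA hw hi1 hi2 hwi2
    intro t' act' hSB' k hk1 hk2 hk3
    have ux : ∀ x : ℤ, 1 ≤ x → x ≤ n → x ≠ i → (w * t') x = w x := fun x h1 h2 h3 =>
      act'.wx h1 h2 h3 h3
    have h1 : par n (w * t') = - nc (w * t') n := by
      apply par_nc'
      intro x hx1 hx2
      by_cases hxk : x ≤ k
      · exact (hk3.1 x hx1 hxk).trans (by omega)
      · rw [ux x hx1 hx2 (by omega), hfix x (by omega) hx2, abs_of_pos (by omega)]; exact hx2
    have h2 : nc (w * t') n = nc (w * t') k :=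
      nc_eq_of_pos (by omega) (by omega) (fun x h3 h4 => by
        rw [ux x (by omega) h4 (by omega), hfix x (by omega) h4]; omega)
    have h3 := (mem_SB_iff hSB'.1).1 hSB'
    rw [h1, h2, even_neg] at h3
    exact (Int.not_even_iff_odd.2 hk3.2) h3

theorem step (hw : w ∈ SB n) (hne : w ≠ 1) : Step n w := by
  by_cases hR : ∃ x : ℤ, 1 ≤ x ∧ x ≤ n ∧ x < w x
  · exact step_right hw hR
  · push Not at hR
    exact step_left hw hne hR


theorem ncard_eq_nc (w : Equiv.Perm ℤ) (j : ℕ) :
    (({i : ℤ | 1 ≤ i ∧ i ≤ j ∧ w i < 0}.ncard : ℕ) : ℤ) = nc w j := by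
  classical
  have : {i : ℤ | 1 ≤ i ∧ i ≤ j ∧ w i < 0} = ↑((Finset.Icc (1 : ℤ) j).filter (fun i => w i < 0)) := by
    ext i
    simp only [Set.mem_ofPred_eq, Finset.coe_filter, Finset.mem_Icc, and_assoc]
  rw [this, Set.ncard_coe_finset]
  unfold nc
  rw [Finset.sum_boole]

theorem bd_iff (hw : IsAffineSigned n w) (j : ℕ) : Bd w j ↔ Good w j ∧ ¬ VeryGood w j := by
  unfold Bd VeryGood
  rw [good_iff hw, ← ncard_eq_nc]
  constructor
  · rintro ⟨h1, h2⟩
    refine ⟨h1, fun h3 => ?_⟩
    rw [Int.odd_coe_nat] at h2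
    exact (Nat.not_even_iff_odd.2 h2) h3.2
  · rintro ⟨h1, h2⟩
    refine ⟨h1, ?_⟩
    rw [Int.odd_coe_nat, ← Nat.not_even_iff_odd]
    exact fun h3 => h2 ⟨h1, h3⟩

theorem card_badset (hw : IsAffineSigned n w) : blC n w = blB n w + (badset n w).card := by
  classical
  have hfin : {j : ℕ | 1 ≤ j ∧ j < n ∧ Good w j}.Finite :=
    (Set.finite_Iio n).subset (fun j hj => hj.2.1)
  have hsub : {j : ℕ | 1 ≤ j ∧ j < n ∧ VeryGood w j} ⊆ {j : ℕ | 1 ≤ j ∧ j < n ∧ Good w j} :=
    fun j hj => ⟨hj.1, hj.2.1, hj.2.2.1⟩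
  have h1 := Set.ncard_sdiff_add_ncard_of_subset hsub hfin
  have h2 : ({j : ℕ | 1 ≤ j ∧ j < n ∧ Good w j} \ {j : ℕ | 1 ≤ j ∧ j < n ∧ VeryGood w j}).ncard =
      (badset n w).card := by
    rw [← Set.ncard_coe_finset, ← Set.ncard_image_of_injective _ (Nat.cast_injective (R := ℤ))]
    congr 1
    ext k
    simp only [Set.mem_image, Set.mem_sdiff, Set.mem_ofPred_eq, Finset.mem_coe, mem_badset]
    constructor
    · rintro ⟨j, ⟨⟨h3, h4, h5⟩, h6⟩, rfl⟩
      refine ⟨by omega, by omega, (bd_iff hw j).2 ⟨h5, fun h7 => h6 ⟨h3, h4, h7⟩⟩⟩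
    · rintro ⟨h3, h4, h5⟩
      obtain ⟨j, rfl⟩ := Int.eq_ofNat_of_zero_le (by omega : 0 ≤ k)
      have h6 := (bd_iff hw j).1 h5
      exact ⟨j, ⟨⟨by omega, by omega, h6.1⟩, fun h7 => h6.2 h7.2.2⟩, rfl⟩
  unfold blC blB
  rw [← h2, ← h1]; ring

theorem badset_one : badset n 1 = ∅ := by
  rw [Finset.eq_empty_iff_forall_notMem]
  intro k hk
  rw [mem_badset] at hk
  have h1 : nc 1 k = 0 := nc_zero_of_pos (by omega) (fun x h1 h2 => by rw [Equiv.Perm.one_apply]; omega)
  have h2 := hk.2.2.2
  rw [h1] at h2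
  simp at h2

theorem lower (l : List (Equiv.Perm ℤ)) (hl : ∀ t ∈ l, t ∈ T n) :
    IsAffineSigned n l.prod ∧
      tvd n l.prod + 2 * (badset n l.prod).card ≤ (l.map (fun t => tvd n t)).sum := by
  induction l using List.reverseRecOn with
  | nil => simp [tvd_one, badset_one, aff_one]
  | append_singleton l t ih =>
    have hl' : ∀ t ∈ l, t ∈ T n := fun t ht => hl t (by simp [ht])
    have ht : t ∈ T n := hl t (by simp)
    obtain ⟨h1, h2⟩ := ih hl'
    rw [List.prod_append, List.prod_singleton, List.map_append, List.sum_append, List.map_singleton,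
      List.sum_singleton]
    have haff := aff_mul h1 ht.1.1
    refine ⟨haff, ?_⟩
    have h3 := lip haff ht
    obtain ⟨_, i, j, _, htr⟩ := ht
    rw [mul_assoc, htr.invol, mul_one] at h3
    linarith

theorem tvd_nonneg (w : Equiv.Perm ℤ) : 0 ≤ tvd n w :=
  Finset.sum_nonneg (fun _ _ => abs_nonneg _)

theorem upper (m : ℕ) : ∀ w ∈ SB n, tvd n w + 2 * (badset n w).card ≤ m →
    ∃ l : List (Equiv.Perm ℤ), (∀ t ∈ l, t ∈ T n) ∧ l.prod = w ∧
      (l.map (fun t => tvd n t)).sum ≤ tvd n w + 2 * (badset n w).card := by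
  induction m using Nat.strong_induction_on with
  | _ m ih =>
    intro w hw hm
    by_cases hne : w = 1
    · refine ⟨[], by simp, by simp [hne], ?_⟩
      have := tvd_nonneg (n := n) w
      simp only [List.map_nil, List.sum_nil]
      positivity
    · obtain ⟨t, ht, hwt, h1, h2⟩ := step hw hne
      have h3 := tvd_nonneg (n := n) (w * t)
      have h4 : 0 ≤ tvd n (w * t) + 2 * ((badset n (w * t)).card : ℤ) := by positivity
      have h5 : tvd n (w * t) + 2 * ((badset n (w * t)).card : ℤ) < m := by linarith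
      obtain ⟨l, hl1, hl2, hl3⟩ := ih (tvd n (w * t) + 2 * ((badset n (w * t)).card : ℤ)).toNat
        (by omega) (w * t) hwt (by omega)
      refine ⟨l ++ [t], ?_, ?_, ?_⟩
      · intro u hu
        rw [List.mem_append, List.mem_singleton] at hu
        rcases hu with hu | rfl
        · exact hl1 u hu
        · exact ht
      · rw [List.prod_append, List.prod_singleton, hl2]
        obtain ⟨_, i, j, _, htr⟩ := ht
        rw [mul_assoc, htr.invol, mul_one]
      · rw [List.map_append, List.sum_append, List.map_singleton, List.sum_singleton]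
        linarith

theorem sum_cast (l : List (Equiv.Perm ℤ)) :
    (l.map (fun t => (tvd n t : ℚ) / 2)).sum = (((l.map (fun t => tvd n t)).sum : ℤ) : ℚ) / 2 := by
  induction l with
  | nil => simp
  | cons a l ih =>
    rw [List.map_cons, List.sum_cons, List.map_cons, List.sum_cons, ih]
    push_cast; ring

/-- For every `n ≥ 1` and `w ∈ SB n`, the cost `$(w)` (the least element of the set of costs of
factorizations of `w` into reflections) equals `tvd w / 2 + bl^C w - bl^B w`. -/
theorem result (n : ℕ) (_hn : 1 ≤ n) (w : Equiv.Perm ℤ) (hw : w ∈ SB n) :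
    IsLeast (factorizationCosts n w) ((tvd n w : ℚ) / 2 + blC n w - blB n w) := by
  have hcard : ((blC n w : ℕ) : ℚ) = blB n w + (badset n w).card := by
    exact_mod_cast card_badset hw.1
  have hval : (tvd n w : ℚ) / 2 + blC n w - blB n w =
      ((tvd n w + 2 * (badset n w).card : ℤ) : ℚ) / 2 := by
    rw [hcard]; push_cast; ring
  rw [hval]
  constructor
  · have h0 := tvd_nonneg (n := n) w
    have h4 : 0 ≤ tvd n w + 2 * ((badset n w).card : ℤ) := by positivity
    obtain ⟨l, hl1, hl2, hl3⟩ := upper (tvd n w + 2 * ((badset n w).card : ℤ)).toNat w hw (by omega)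
    refine ⟨l, hl1, hl2, ?_⟩
    rw [sum_cast]
    have h5 := (lower l hl1).2
    rw [hl2] at h5
    rw [le_antisymm hl3 h5]
  · rintro c ⟨l, hl1, hl2, rfl⟩
    rw [sum_cast]
    have h5 := (lower l hl1).2
    rw [hl2] at h5
    have h6 : ((tvd n w + 2 * (badset n w).card : ℤ) : ℚ) ≤ ((l.map (fun t => tvd n t)).sum : ℤ) := by
      exact_mod_cast h5
    linarith


end Pool.Agent.Results.MP_0e82d3_co.CostFormula
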